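import Pool.Agent.Helper61.Motz.Near

/-!
# Circuits in the nearest hyperplane
-/

set_option autoImplicit false
set_option linter.unusedSectionVars false

namespace Pool.Agent.Helper61.Motz

open Submodule

variable {K : Type} [Field K] [LinearOrder K] [IsStrictOrderedRing K]
variable {V : Type} [AddCommGroup V] [Module K V]
variable {ι : Type} [Finite ι]

section

variable {n : ℕ} (w : Fin (n + 1) → V) (B : Module.Basis (Fin (n + 1)) K V)

/-- Coordinates with respect to a spanning circuit of a hyperplane. -/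
noncomputable def yy (k : Fin (n + 1)) : Module.Dual K V :=
  if k = Fin.last n then 0 else B.coord k

/-- Differences of coordinates. -/
noncomputable def hh (a b : Fin (n + 1)) : Module.Dual K V := yy B a - yy B b

theorem hh_apply (a b : Fin (n + 1)) (x : V) : hh B a b x = yy B a x - yy B b x := rfl

theorem yy_last (x : V) : yy B (Fin.last n) x = 0 := by simp [yy]

theorem yy_of_ne {k : Fin (n + 1)} (h : k ≠ Fin.last n) (x : V) : yy B k x = B.coord k x := by
  simp [yy, h]

variable {w B}

theorem yy_basis (hB : ∀ k, k ≠ Fin.last n → B k = w k) (k : Fin (n + 1)) {l : Fin (n + 1)}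
    (hl : l ≠ Fin.last n) : yy B k (w l) = if k = l then 1 else 0 := by
  rw [← hB l hl]
  by_cases hk : k = Fin.last n
  · subst hk
    rw [yy_last, if_neg (Ne.symm hl)]
  · rw [yy_of_ne B hk]
    by_cases hkl : k = l
    · subst hkl; simp
    · rw [if_neg hkl]
      simp [Ne.symm hkl]

theorem w_last (hsum : ∑ k, w k = 0) : w (Fin.last n) = -∑ k : Fin n, w k.castSucc := by
  rw [Fin.sum_univ_castSucc] at hsum
  exact eq_neg_of_add_eq_zero_right hsum

theorem yy_last' (hB : ∀ k, k ≠ Fin.last n → B k = w k) (hsum : ∑ k, w k = 0)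
    {k : Fin (n + 1)} (hk : k ≠ Fin.last n) : yy B k (w (Fin.last n)) = -1 := by
  rw [w_last hsum, map_neg, map_sum]
  congr 1
  have h1 : ∀ l : Fin n, yy B k (w l.castSucc) = if k = l.castSucc then 1 else 0 := fun l =>
    yy_basis hB k (Fin.castSucc_ne_last l)
  rw [Finset.sum_congr rfl (fun l _ => h1 l)]
  obtain ⟨k', rfl⟩ := Fin.exists_castSucc_eq.mpr hk
  rw [Finset.sum_eq_single k']
  · simp
  · intro l _ hl
    rw [if_neg]
    intro h
    exact hl (Fin.castSucc_injective n h).symm
  · simp

theorem hh_zero (hB : ∀ k, k ≠ Fin.last n → B k = w k) (hsum : ∑ k, w k = 0)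
    {a b l : Fin (n + 1)} (ha : l ≠ a) (hb : l ≠ b) : hh B a b (w l) = 0 := by
  rw [hh_apply]
  by_cases hl : l = Fin.last n
  · subst hl
    rw [yy_last' hB hsum (Ne.symm ha), yy_last' hB hsum (Ne.symm hb), sub_self]
  · rw [yy_basis hB a hl, yy_basis hB b hl, if_neg (Ne.symm ha), if_neg (Ne.symm hb), sub_self]

theorem hh_one (hB : ∀ k, k ≠ Fin.last n → B k = w k) (hsum : ∑ k, w k = 0)
    {a b : Fin (n + 1)} (hab : a ≠ b) : hh B a b (w a) = 1 := by
  rw [hh_apply]
  by_cases ha : a = Fin.last n
  · subst ha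
    rw [yy_last, yy_last' hB hsum (Ne.symm hab)]
    ring
  · rw [yy_basis hB a ha, yy_basis hB b ha, if_pos rfl, if_neg (Ne.symm hab), sub_zero]

theorem repr_circ (hB : ∀ k, k ≠ Fin.last n → B k = w k) (hsum : ∑ k, w k = 0)
    {f : Module.Dual K V} (hfw : ∀ k, f (w k) = 0) (hfs : f (B (Fin.last n)) ≠ 0) {x : V}
    (hx : f x = 0) (c : K) : x = ∑ k, (yy B k x - c) • w k := by
  have h1 : ∑ k, (yy B k x - c) • w k = ∑ k, yy B k x • w k := by
    simp only [sub_smul, Finset.sum_sub_distrib, ← Finset.smul_sum, hsum, smul_zero, sub_zero]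
  rw [h1]
  have h2 : x = ∑ k, B.coord k x • B k := by
    simp
  have h3 : B.coord (Fin.last n) x = 0 := by
    have h4 := congrArg f h2
    rw [hx, map_sum] at h4
    rw [Finset.sum_eq_single (Fin.last n)] at h4
    · rw [map_smul, smul_eq_mul] at h4
      rcases mul_eq_zero.mp h4.symm with h | h
      · exact h
      · exact absurd h hfs
    · intro k _ hk
      rw [map_smul, hB k hk, hfw k, smul_zero]
    · simp
  conv_lhs => rw [h2]
  apply Finset.sum_congr rfl
  intro k _
  by_cases hk : k = Fin.last n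
  · subst hk
    rw [h3, yy_last, zero_smul, zero_smul]
  · rw [yy_of_ne B hk, hB k hk]

end

/-- **Circuit lemma.** Let `f, F` be as in the key lemma and let `w k = t k • v (j k)` be a
circuit spanning the kernel of `f`.  Then after deleting two suitable elements the remaining ones
together with `s` span a hyperplane without further points. -/
theorem circ {n : ℕ} (hn : 1 ≤ n) (v : ι → V) (s : ι) (f : Module.Dual K V) (F : V)
    (hf : Hyp v s f)
    (hkey : ∀ g : Module.Dual K V, Cut v f g → g F ≠ 0 ∧
        ∀ z, f (v z) ≠ 0 → 0 < g F →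
          0 ≤ (-(f (v s) / f (v z))) * g (v z - (f (v z) / f (v s)) • v s))
    (j : Fin (n + 1) → ι) (t : Fin (n + 1) → K) (ht : ∀ k, t k ≠ 0)
    (hfj : ∀ k, f (v (j k)) = 0) (hsum : ∑ k, t k • v (j k) = 0)
    (B : Module.Basis (Fin (n + 1)) K V) (hB : ∀ k, k ≠ Fin.last n → B k = t k • v (j k))
    (hBs : B (Fin.last n) = v s) :
    ∃ a b : Fin (n + 1), a ≠ b ∧ ∀ z : ι,
      v z ∈ span K (insert (v s) (v '' (j '' {k | k ≠ a ∧ k ≠ b}))) →
      v z ∈ span K (v '' (j '' {k | k ≠ a ∧ k ≠ b})) ∨ v z ∈ span K {v s} := by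
  classical
  set w : Fin (n + 1) → V := fun k => t k • v (j k) with hw
  have hfs := hf.ne
  have hfw : ∀ k, f (w k) = 0 := fun k => by rw [hw]; simp [hfj k]
  have hfB : f (B (Fin.last n)) ≠ 0 := by rw [hBs]; exact hfs
  have hrepr : ∀ {x : V}, f x = 0 → ∀ c : K, x = ∑ k, (yy B k x - c) • w k :=
    fun hx c => repr_circ hB hsum hfw hfB hx c
  have hcut : ∀ a b : Fin (n + 1), a ≠ b → Cut v f (hh B a b) := by
    intro a b hab
    constructor
    · rintro x ⟨hx1, hx2⟩
      have hx1' : f x = 0 := hx1
      have hx2' : yy B a x - yy B b x = 0 := hx2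
      rw [hrepr hx1' (yy B a x)]
      apply Submodule.sum_mem
      intro k _
      by_cases hka : k = a
      · subst hka; simp
      by_cases hkb : k = b
      · subst hkb
        rw [← sub_eq_zero.mp hx2']; simp
      apply Submodule.smul_mem
      apply Submodule.smul_mem
      apply subset_span
      refine ⟨j k, ⟨hfj k, ?_⟩, rfl⟩
      have h1 : hh B a b (w k) = 0 := hh_zero hB hsum hka hkb
      rw [hw] at h1
      simp only [map_smul, smul_eq_mul] at h1
      rcases mul_eq_zero.mp h1 with h | h
      · exact absurd h (ht k)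
      · exact h
    · refine ⟨w a, hfw a, ?_⟩
      rw [hh_one hB hsum hab]
      exact one_ne_zero
  have hinj : ∀ k l : Fin (n + 1), k ≠ l → yy B k F ≠ yy B l F := by
    intro k l hkl h
    exact (hkey _ (hcut k l hkl)).1 (by rw [hh_apply, h, sub_self])
  obtain ⟨a, -, ha⟩ := Finset.exists_max_image (Finset.univ : Finset (Fin (n + 1)))
    (fun k => yy B k F) ⟨0, Finset.mem_univ _⟩
  obtain ⟨b, -, hb⟩ := Finset.exists_min_image (Finset.univ : Finset (Fin (n + 1)))
    (fun k => yy B k F) ⟨0, Finset.mem_univ _⟩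
  have hab : a ≠ b := by
    rintro rfl
    have h0 : (0 : Fin (n + 1)) ≠ Fin.last n := by
      intro h
      have := congrArg Fin.val h
      simp at this
      omega
    apply hinj _ _ h0
    have h1 := ha 0 (Finset.mem_univ _)
    have h2 := hb 0 (Finset.mem_univ _)
    have h3 := ha (Fin.last n) (Finset.mem_univ _)
    have h4 := hb (Fin.last n) (Finset.mem_univ _)
    linarith
  have hapos : ∀ k, k ≠ a → 0 < hh B a k F := by
    intro k hk
    rw [hh_apply]
    have h1 := ha k (Finset.mem_univ _)
    have h2 := hinj k a hk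
    exact sub_pos.mpr (lt_of_le_of_ne h1 h2)
  have hbpos : ∀ k, k ≠ b → 0 < hh B k b F := by
    intro k hk
    rw [hh_apply]
    have h1 := hb k (Finset.mem_univ _)
    have h2 := hinj b k (Ne.symm hk)
    exact sub_pos.mpr (lt_of_le_of_ne h1 h2)
  refine ⟨a, b, hab, ?_⟩
  intro z hz
  -- write `v z = α • v s + u`
  rw [mem_span_insert] at hz
  obtain ⟨α, u, hu, hzu⟩ := hz
  have hker : span K (v '' (j '' {k | k ≠ a ∧ k ≠ b})) ≤
      LinearMap.ker f ⊓ LinearMap.ker (hh B a b) := by
    rw [span_le]
    rintro _ ⟨_, ⟨k, ⟨hka, hkb⟩, rfl⟩, rfl⟩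
    refine ⟨hfj k, ?_⟩
    change hh B a b (v (j k)) = 0
    have h1 : hh B a b (w k) = 0 := hh_zero hB hsum hka hkb
    rw [hw] at h1
    simp only [map_smul, smul_eq_mul] at h1
    rcases mul_eq_zero.mp h1 with h | h
    · exact absurd h (ht k)
    · exact h
  have hfu : f u = 0 := (hker hu).1
  have hhu : hh B a b u = 0 := (hker hu).2
  have hfz : f (v z) = α * f (v s) := by
    rw [hzu, map_add, map_smul, hfu, add_zero, smul_eq_mul]
  by_cases hz0 : f (v z) = 0
  · left
    have hα : α = 0 := by
      rw [hz0] at hfz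
      rcases mul_eq_zero.mp hfz.symm with h | h
      · exact h
      · exact absurd h hfs
    rw [hzu, hα, zero_smul, zero_add]
    exact hu
  · right
    have hα : f (v z) / f (v s) = α := by rw [hfz, mul_div_cancel_right₀ _ hfs]
    have hz' : v z - (f (v z) / f (v s)) • v s = u := by
      rw [hα, hzu]; abel
    have hρ : -(f (v s) / f (v z)) ≠ 0 := neg_ne_zero.mpr (div_ne_zero hfs hz0)
    have hall : ∀ k, yy B k u = yy B a u := by
      intro k
      by_cases hka : k = a
      · rw [hka]
      by_cases hkb : k = b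
      · rw [hkb]
        rw [hh_apply] at hhu
        linarith
      have h1 := (hkey _ (hcut a k (Ne.symm hka))).2 z hz0 (hapos k hka)
      have h2 := (hkey _ (hcut k b hkb)).2 z hz0 (hbpos k hkb)
      rw [hz', hh_apply] at h1 h2
      rw [hh_apply] at hhu
      have h3 : -(f (v s) / f (v z)) * (yy B a u - yy B k u) +
          -(f (v s) / f (v z)) * (yy B k u - yy B b u) = 0 := by
        rw [← mul_add, sub_add_sub_cancel, hhu, mul_zero]
      have h4 : -(f (v s) / f (v z)) * (yy B a u - yy B k u) = 0 := le_antisymm (by linarith) h1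
      rcases mul_eq_zero.mp h4 with h | h
      · exact absurd h hρ
      · linarith
    have hu0 : u = 0 := by
      rw [hrepr hfu (yy B a u)]
      apply Finset.sum_eq_zero
      intro k _
      rw [hall k, sub_self, zero_smul]
    rw [hzu, hu0, add_zero]
    exact Submodule.smul_mem _ _ (mem_span_singleton_self _)

end Pool.Agent.Helper61.Motz
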