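import Pool.Agent.Helper61.Motz.Circ

/-!
# Ordinary lines and planes
-/

set_option autoImplicit false
set_option linter.unusedSectionVars false

namespace Pool.Agent.Helper61.Motz

open Submodule Module

variable {K : Type} [Field K] [LinearOrder K] [IsStrictOrderedRing K]
variable {V : Type} [AddCommGroup V] [Module K V]
variable {ι : Type} [Finite ι]

theorem exists_indep (v : ι → V) (X : Set ι) {m : ℕ}
    (hm : finrank K (span K (v '' X)) = m) :
    ∃ j : Fin m → ι, (∀ k, j k ∈ X) ∧ LinearIndependent K (fun k => v (j k)) ∧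
      span K (Set.range (fun k => v (j k))) = span K (v '' X) := by
  obtain ⟨b, hb, hbs, hli⟩ := exists_linearIndependent K (v '' X)
  have hbf : b.Finite := (Set.toFinite (v '' X)).subset hb
  have : Fintype b := hbf.fintype
  have hcard : Fintype.card b = m := by
    have h1 := finrank_span_set_eq_card hli
    rw [hbs, hm] at h1
    rw [h1, Set.toFinset_card]
  have hex : ∀ y : b, ∃ i ∈ X, v i = y := fun y => hb y.2
  choose i hiX hi using hex
  let e : Fin m ≃ b := (Fintype.equivFinOfCardEq hcard).symm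
  have hfun : (fun k => v (i (e k))) = ((↑) : b → V) ∘ e := by
    ext k; exact hi (e k)
  refine ⟨fun k => i (e k), fun k => hiX _, ?_, ?_⟩
  · rw [hfun]
    exact hli.comp e e.injective
  · rw [hfun, e.surjective.range_comp, Subtype.range_coe, hbs]

theorem finrank_ker [FiniteDimensional K V] {n : ℕ} (hfr : finrank K V = n + 1) (f : Dual K V)
    (hf : f ≠ 0) : finrank K (LinearMap.ker f) = n := by
  have h1 := LinearMap.finrank_range_add_finrank_ker f
  have h2 : LinearMap.range f = ⊤ := by
    rw [LinearMap.range_eq_top]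
    exact LinearMap.surjective hf
  rw [h2, finrank_top, finrank_self, hfr] at h1
  omega

/-- Wrapper for the circuit lemma. -/
theorem circ' {n : ℕ} (hn : 1 ≤ n) [FiniteDimensional K V] (hfr : finrank K V = n + 1)
    (v : ι → V) (s : ι) (f : Module.Dual K V) (F : V) (hf : Hyp v s f)
    (hkey : ∀ g : Module.Dual K V, Cut v f g → g F ≠ 0 ∧
        ∀ z, f (v z) ≠ 0 → 0 < g F →
          0 ≤ (-(f (v s) / f (v z))) * g (v z - (f (v z) / f (v s)) • v s))
    (j : Fin n → ι) (hli : LinearIndependent K (fun k => v (j k)))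
    (hfj : ∀ k, f (v (j k)) = 0) (l : ι) (hl : f (v l) = 0) (c : Fin n → K)
    (hc : ∀ k, c k ≠ 0) (hsum : v l = ∑ k, c k • v (j k)) :
    ∃ a b : Fin (n + 1), a ≠ b ∧ ∀ z : ι,
      v z ∈ span K (insert (v s) (v '' ((Fin.snoc j l : Fin (n + 1) → ι) '' {k | k ≠ a ∧ k ≠ b}))) →
      v z ∈ span K (v '' ((Fin.snoc j l : Fin (n + 1) → ι) '' {k | k ≠ a ∧ k ≠ b})) ∨
        v z ∈ span K {v s} := by
  have hli2 : LinearIndependent K (fun k => c k • v (j k)) := by
    have h1 := hli.units_smul (fun k => Units.mk0 (c k) (hc k))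
    exact h1
  have hs : v s ∉ span K (Set.range (fun k => c k • v (j k))) := by
    intro h
    have h1 : span K (Set.range (fun k => c k • v (j k))) ≤ LinearMap.ker f := by
      rw [span_le]
      rintro _ ⟨k, rfl⟩
      change f (c k • v (j k)) = 0
      rw [map_smul, hfj k, smul_zero]
    exact hf.ne (h1 h)
  have hli3 : LinearIndependent K (Fin.snoc (fun k => c k • v (j k)) (v s) : Fin (n + 1) → V) :=
    linearIndependent_finSnoc.mpr ⟨hli2, hs⟩
  let B := basisOfLinearIndependentOfCardEqFinrank hli3 (by rw [hfr, Fintype.card_fin])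
  have hBv : ∀ k, B k = (Fin.snoc (fun k => c k • v (j k)) (v s) : Fin (n + 1) → V) k := fun k => by
    change (basisOfLinearIndependentOfCardEqFinrank hli3 _) k = _
    rw [coe_basisOfLinearIndependentOfCardEqFinrank]
  apply circ hn v s f F hf hkey (Fin.snoc j l) (Fin.snoc c (-1)) ?_ ?_ ?_ B ?_ ?_
  · intro k
    refine Fin.lastCases ?_ (fun k => ?_) k
    · rw [Fin.snoc_last]; exact neg_ne_zero.mpr one_ne_zero
    · rw [Fin.snoc_castSucc]; exact hc k
  · intro k
    refine Fin.lastCases ?_ (fun k => ?_) k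
    · rw [Fin.snoc_last]; exact hl
    · rw [Fin.snoc_castSucc]; exact hfj k
  · rw [Fin.sum_univ_castSucc]
    simp only [Fin.snoc_castSucc, Fin.snoc_last]
    rw [← hsum, neg_smul, one_smul, add_neg_cancel]
  · intro k hk
    obtain ⟨k', rfl⟩ := Fin.exists_castSucc_eq.mpr hk
    rw [hBv, Fin.snoc_castSucc, Fin.snoc_castSucc, Fin.snoc_castSucc]
  · rw [hBv, Fin.snoc_last]

/-- **Sylvester-Gallai.** -/
theorem sg3 (v : ι → V) (hspan : span K (Set.range v) = ⊤) (hfr : finrank K V = 3)
    (h0 : ∀ i, v i ≠ 0) (h1 : ∀ i j, v i ∈ span K {v j} → i = j) :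
    ∃ p q, p ≠ q ∧ ∀ z, v z ∈ span K {v p, v q} → z = p ∨ z = q := by
  have : FiniteDimensional K V := Module.finite_of_finrank_pos (by omega)
  have hne : Nonempty ι := by
    by_contra h
    rw [not_nonempty_iff] at h
    rw [Set.range_eq_empty, span_empty] at hspan
    have := finrank_bot K V
    rw [hspan, finrank_top] at this
    omega
  obtain ⟨s⟩ := hne
  obtain ⟨f, F, hf, hF, hkey⟩ := key v hspan s (h0 s)
  have hf0 : f ≠ 0 := by
    rintro rfl
    exact hf.ne rfl
  have hker : span K (v '' {i | f (v i) = 0}) = LinearMap.ker f := by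
    apply le_antisymm _ hf.le
    rw [span_le]
    rintro _ ⟨i, hi, rfl⟩
    exact hi
  have hk2 : finrank K (span K (v '' {i | f (v i) = 0})) = 2 := by
    rw [hker]; exact finrank_ker hfr f hf0
  obtain ⟨j, hjX, hli, hjs⟩ := exists_indep v _ hk2
  have hrange : Set.range (fun k => v (j k)) = {v (j 0), v (j 1)} := by
    ext x
    simp only [Set.mem_range, Set.mem_insert_iff, Set.mem_singleton_iff]
    constructor
    · rintro ⟨k, rfl⟩
      fin_cases k
      · exact Or.inl rfl
      · exact Or.inr rfl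
    · rintro (rfl | rfl)
      · exact ⟨0, rfl⟩
      · exact ⟨1, rfl⟩
  have hj01 : j 0 ≠ j 1 := by
    intro h
    have := hli.injective (a₁ := 0) (a₂ := 1) (by simp only [h])
    exact absurd this (by decide)
  by_cases hall : ∀ z, f (v z) = 0 → z = j 0 ∨ z = j 1
  · refine ⟨j 0, j 1, hj01, ?_⟩
    intro z hz
    apply hall
    rw [← hrange, hjs, hker] at hz
    exact hz
  · push Not at hall
    obtain ⟨l, hl, hl0, hl1⟩ := hall
    have hlmem : v l ∈ span K {v (j 0), v (j 1)} := by
      rw [← hrange, hjs, hker]; exact hl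
    obtain ⟨α, β, hαβ⟩ := mem_span_pair.mp hlmem
    have hα : α ≠ 0 := by
      rintro rfl
      apply hl1
      apply h1
      rw [← hαβ, zero_smul, zero_add]
      exact Submodule.smul_mem _ _ (mem_span_singleton_self _)
    have hβ : β ≠ 0 := by
      rintro rfl
      apply hl0
      apply h1
      rw [← hαβ, zero_smul, add_zero]
      exact Submodule.smul_mem _ _ (mem_span_singleton_self _)
    obtain ⟨a, b, hab, hcirc⟩ := circ' (by norm_num) hfr v s f F hf hkey j hli hjX l hl ![α, β]
      (by intro k; fin_cases k; exacts [hα, hβ]) (by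
        rw [Fin.sum_univ_two]; exact hαβ.symm)
    have hidx : ∀ a b : Fin 3, a ≠ b → ∃ k, ∀ m, (m ≠ a ∧ m ≠ b) ↔ m = k := by decide
    obtain ⟨k, hk⟩ := hidx a b hab
    have hset : {m : Fin 3 | m ≠ a ∧ m ≠ b} = {k} := by
      ext m; exact hk m
    set J : Fin 3 → ι := Fin.snoc j l with hJ
    have hJ0 : ∀ m, f (v (J m)) = 0 := by
      intro m
      refine Fin.lastCases ?_ (fun m => ?_) m
      · rw [hJ, Fin.snoc_last]; exact hl
      · rw [hJ, Fin.snoc_castSucc]; exact hjX m
    rw [hset, Set.image_singleton, Set.image_singleton] at hcirc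
    refine ⟨s, J k, ?_, ?_⟩
    · intro h
      exact hf.ne (h ▸ hJ0 k)
    · intro z hz
      rcases hcirc z hz with h | h
      · exact Or.inr (h1 _ _ h)
      · exact Or.inl (h1 _ _ h)

/-- Elementary form of linear independence of three vectors. -/
def Ind3 (K : Type) [Field K] {V : Type} [AddCommGroup V] [Module K V] (x y w : V) : Prop :=
  ∀ a b c : K, a • x + b • y + c • w = 0 → a = 0 ∧ b = 0 ∧ c = 0

theorem ind3_iff {x y w : V} : Ind3 K x y w ↔ LinearIndependent K ![x, y, w] := by
  rw [Fintype.linearIndependent_iff]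
  constructor
  · intro h g hg
    rw [Fin.sum_univ_three] at hg
    obtain ⟨h0, h1, h2⟩ := h (g 0) (g 1) (g 2) hg
    intro i
    fin_cases i
    exacts [h0, h1, h2]
  · intro h a b c habc
    have h2 := h ![a, b, c] (by rw [Fin.sum_univ_three]; exact habc)
    exact ⟨h2 0, h2 1, h2 2⟩

theorem Ind3.swap01 {x y w : V} (h : Ind3 K x y w) : Ind3 K y x w := by
  intro a b c habc
  obtain ⟨h0, h1, h2⟩ := h b a c (by rw [← habc]; abel)
  exact ⟨h1, h0, h2⟩

theorem Ind3.swap12 {x y w : V} (h : Ind3 K x y w) : Ind3 K x w y := by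
  intro a b c habc
  obtain ⟨h0, h1, h2⟩ := h a c b (by rw [← habc]; abel)
  exact ⟨h0, h2, h1⟩

/-- Four points of a plane, no three collinear. -/
def Quad (v : ι → V) (X : Set ι) : Prop :=
  ∃ i j k l : ι, i ∈ X ∧ j ∈ X ∧ k ∈ X ∧ l ∈ X ∧ Ind3 K (v i) (v j) (v k) ∧
    ∃ a b c : K, a ≠ 0 ∧ b ≠ 0 ∧ c ≠ 0 ∧ v l = a • v i + b • v j + c • v k

theorem two_sides (v : ι → V) (X : Set ι) {i j k q r : ι} (hi : i ∈ X) (hj : j ∈ X) (hk : k ∈ X)
    (hq : q ∈ X) (hr : r ∈ X) (hli : Ind3 K (v i) (v j) (v k)) {a b a' c' : K} (ha : a ≠ 0)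
    (hb : b ≠ 0) (ha' : a' ≠ 0) (hc' : c' ≠ 0) (hvq : v q = a • v i + b • v j)
    (hvr : v r = a' • v i + c' • v k) : Quad (K := K) v X := by
  refine ⟨q, j, k, r, hq, hj, hk, hr, ?_, a' / a, -(a' * b / a), c', div_ne_zero ha' ha,
    neg_ne_zero.mpr (div_ne_zero (mul_ne_zero ha' hb) ha), hc', ?_⟩
  · intro x y z hxyz
    rw [hvq] at hxyz
    obtain ⟨h0, h1, h2⟩ := hli (x * a) (x * b + y) z (by
      rw [← hxyz, smul_add, smul_smul, smul_smul, add_smul]; abel)
    have hx : x = 0 := by
      rcases mul_eq_zero.mp h0 with h | h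
      · exact h
      · exact absurd h ha
    refine ⟨hx, ?_, h2⟩
    rw [hx, zero_mul, zero_add] at h1
    exact h1
  · rw [hvr, hvq, smul_add, smul_smul, smul_smul]
    have e1 : a' / a * a = a' := div_mul_cancel₀ _ ha
    have e2 : a' / a * b = a' * b / a := by ring
    rw [e1, e2, neg_smul]
    abel

/-- A planar set is a near-pencil or contains four points, no three collinear. -/
theorem planar (v : ι → V) (h1 : ∀ i j, v i ∈ span K {v j} → i = j) (X : Set ι)
    (hfr : finrank K (span K (v '' X)) = 3) :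
    (∃ p a b, p ∈ X ∧ a ∈ X ∧ b ∈ X ∧ a ≠ b ∧ v p ∉ span K {v a, v b} ∧
      ∀ z ∈ X, z = p ∨ v z ∈ span K {v a, v b}) ∨ Quad (K := K) v X := by
  obtain ⟨j, hjX, hli, hjs⟩ := exists_indep v X hfr
  have hcoef : ∀ z ∈ X, ∃ a b c : K, v z = a • v (j 0) + b • v (j 1) + c • v (j 2) := by
    intro z hz
    have h2 : v z ∈ span K (Set.range (fun k => v (j k))) := by
      rw [hjs]; exact subset_span ⟨z, hz, rfl⟩
    rw [mem_span_range_iff_exists_fun] at h2
    obtain ⟨c, hc⟩ := h2
    refine ⟨c 0, c 1, c 2, ?_⟩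
    rw [← hc, Fin.sum_univ_three]
  have hI : Ind3 K (v (j 0)) (v (j 1)) (v (j 2)) := by
    rw [ind3_iff]
    have : (fun k => v (j k)) = ![v (j 0), v (j 1), v (j 2)] := by
      ext k; fin_cases k <;> rfl
    rwa [this] at hli
  have hmem : ∀ {x y : V} (a b : K), a • x + b • y ∈ span K {x, y} := fun a b =>
    mem_span_pair.mpr ⟨a, b, rfl⟩
  have hpar : ∀ {z w : ι} {a : K}, v z = a • v w → z = w := fun h =>
    h1 _ _ (by rw [h]; exact Submodule.smul_mem _ _ (mem_span_singleton_self _))
  have hnot : ∀ {x y w : V}, Ind3 K x y w → w ∉ span K {x, y} := by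
    intro x y w h hw
    obtain ⟨a, b, hab⟩ := mem_span_pair.mp hw
    obtain ⟨-, -, h3⟩ := h a b (-1) (by rw [hab]; simp)
    exact one_ne_zero (neg_eq_zero.mp h3)
  have hne : ∀ {x y : ι} {w : V}, Ind3 K (v x) (v y) w → x ≠ y := by
    rintro x y w h rfl
    obtain ⟨h2, -, -⟩ := h 1 (-1) 0 (by simp)
    exact one_ne_zero h2
  by_cases hQ : Quad (K := K) v X
  · exact Or.inr hQ
  left
  have hnz : ∀ z ∈ X, ∀ a b c : K, v z = a • v (j 0) + b • v (j 1) + c • v (j 2) →
      a = 0 ∨ b = 0 ∨ c = 0 := by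
    intro z hz a b c habc
    by_contra hcon
    push Not at hcon
    exact hQ ⟨j 0, j 1, j 2, z, hjX 0, hjX 1, hjX 2, hz, hI, a, b, c, hcon.1, hcon.2.1, hcon.2.2,
      habc⟩
  -- the three sides
  by_cases hS2 : ∃ z ∈ X, ∃ a b : K, a ≠ 0 ∧ b ≠ 0 ∧ v z = a • v (j 0) + b • v (j 1)
  · obtain ⟨q, hq, a, b, ha, hb, hvq⟩ := hS2
    refine ⟨j 2, j 0, j 1, hjX 2, hjX 0, hjX 1, hne hI, hnot hI, ?_⟩
    intro z hz
    obtain ⟨a', b', c', habc⟩ := hcoef z hz
    by_cases hc' : c' = 0
    · right
      rw [habc, hc', zero_smul, add_zero]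
      exact hmem _ _
    left
    by_cases ha' : a' = 0
    · by_cases hb' : b' = 0
      · rw [ha', hb', zero_smul, zero_smul, zero_add, zero_add] at habc
        exact hpar habc
      · exfalso
        apply hQ
        refine two_sides v X (hjX 1) (hjX 0) (hjX 2) hq hz hI.swap01 hb ha hb' hc' ?_ ?_
        · rw [hvq]; abel
        · rw [habc, ha', zero_smul, zero_add]
    · exfalso
      rcases hnz z hz a' b' c' habc with h | h | h
      · exact ha' h
      · apply hQ
        refine two_sides v X (hjX 0) (hjX 1) (hjX 2) hq hz hI ha hb ha' hc' hvq ?_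
        rw [habc, h, zero_smul, add_zero]
      · exact hc' h
  · by_cases hS1 : ∃ z ∈ X, ∃ a c : K, a ≠ 0 ∧ c ≠ 0 ∧ v z = a • v (j 0) + c • v (j 2)
    · obtain ⟨q, hq, a, c, ha, hc, hvq⟩ := hS1
      refine ⟨j 1, j 0, j 2, hjX 1, hjX 0, hjX 2, hne hI.swap12, hnot hI.swap12, ?_⟩
      intro z hz
      obtain ⟨a', b', c', habc⟩ := hcoef z hz
      by_cases hb' : b' = 0
      · right
        rw [habc, hb', zero_smul, add_zero]
        exact hmem _ _
      left
      by_cases ha' : a' = 0
      · by_cases hc' : c' = 0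
        · rw [ha', hc', zero_smul, zero_smul, zero_add, add_zero] at habc
          exact hpar habc
        · exfalso
          apply hQ
          refine two_sides v X (hjX 2) (hjX 0) (hjX 1) hq hz hI.swap12.swap01 hc ha hc' hb' ?_ ?_
          · rw [hvq]; abel
          · rw [habc, ha', zero_smul, zero_add]; abel
      · exfalso
        rcases hnz z hz a' b' c' habc with h | h | h
        · exact ha' h
        · exact hb' h
        · exact hS2 ⟨z, hz, a', b', ha', hb', by rw [habc, h, zero_smul, add_zero]⟩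
    · have hI' := hI.swap01.swap12
      refine ⟨j 0, j 1, j 2, hjX 0, hjX 1, hjX 2, hne hI', hnot hI', ?_⟩
      intro z hz
      obtain ⟨a', b', c', habc⟩ := hcoef z hz
      by_cases ha' : a' = 0
      · right
        rw [habc, ha', zero_smul, zero_add]
        exact hmem _ _
      left
      rcases hnz z hz a' b' c' habc with h | h | h
      · exact absurd h ha'
      · by_cases hc' : c' = 0
        · rw [h, hc', zero_smul, zero_smul, add_zero, add_zero] at habc
          exact hpar habc
        · exact absurd ⟨z, hz, a', c', ha', hc', by rw [habc, h, zero_smul, add_zero]⟩ hS1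
      · by_cases hb' : b' = 0
        · rw [h, hb', zero_smul, zero_smul, add_zero, add_zero] at habc
          exact hpar habc
        · exact absurd ⟨z, hz, a', b', ha', hb', by rw [habc, h, zero_smul, add_zero]⟩ hS2

/-- **Motzkin.** -/
theorem motz4 (v : ι → V) (hspan : span K (Set.range v) = ⊤) (hfr : finrank K V = 4)
    (h0 : ∀ i, v i ≠ 0) (h1 : ∀ i j, v i ∈ span K {v j} → i = j) :
    ∃ p a b, a ≠ b ∧ v p ∉ span K {v a, v b} ∧
      ∀ z, v z ∈ span K {v p, v a, v b} → z = p ∨ v z ∈ span K {v a, v b} := by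
  have : FiniteDimensional K V := Module.finite_of_finrank_pos (by omega)
  have hne : Nonempty ι := by
    by_contra h
    rw [not_nonempty_iff] at h
    rw [Set.range_eq_empty, span_empty] at hspan
    have := finrank_bot K V
    rw [hspan, finrank_top] at this
    omega
  obtain ⟨s⟩ := hne
  obtain ⟨f, F, hf, hF, hkey⟩ := key v hspan s (h0 s)
  have hf0 : f ≠ 0 := by
    rintro rfl
    exact hf.ne rfl
  have hker : span K (v '' {i | f (v i) = 0}) = LinearMap.ker f := by
    apply le_antisymm _ hf.le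
    rw [span_le]
    rintro _ ⟨i, hi, rfl⟩
    exact hi
  have hk3 : finrank K (span K (v '' {i | f (v i) = 0})) = 3 := by
    rw [hker]; exact finrank_ker hfr f hf0
  rcases planar v h1 _ hk3 with ⟨p, a, b, hp, ha, hb, hab, hpab, hall⟩ | hQ
  · refine ⟨p, a, b, hab, hpab, ?_⟩
    intro z hz
    apply hall
    have h2 : span K {v p, v a, v b} ≤ LinearMap.ker f := by
      rw [span_le]
      rintro _ (rfl | rfl | rfl)
      · exact hp
      · exact ha
      · exact hb
    exact h2 hz
  · obtain ⟨i0, i1, i2, l, hi0, hi1, hi2, hl, hI, c0, c1, c2, hc0, hc1, hc2, hsum⟩ := hQ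
    have hli : LinearIndependent K (fun k => v ((![i0, i1, i2] : Fin 3 → ι) k)) := by
      have : (fun k => v ((![i0, i1, i2] : Fin 3 → ι) k)) = ![v i0, v i1, v i2] := by
        ext k; fin_cases k <;> rfl
      rw [this, ← ind3_iff]; exact hI
    obtain ⟨a, b, hab, hcirc⟩ := circ' (by norm_num) hfr v s f F hf hkey ![i0, i1, i2] hli
      (by intro k; fin_cases k; exacts [hi0, hi1, hi2]) l hl ![c0, c1, c2]
      (by intro k; fin_cases k; exacts [hc0, hc1, hc2])
      (by rw [Fin.sum_univ_three]; exact hsum)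
    have hidx : ∀ a b : Fin 4, a ≠ b → ∃ k m, k ≠ m ∧ ∀ r, (r ≠ a ∧ r ≠ b) ↔ (r = k ∨ r = m) := by
      decide
    obtain ⟨k, m, hkm, hk⟩ := hidx a b hab
    have hset : {r : Fin 4 | r ≠ a ∧ r ≠ b} = {k, m} := by
      ext r; exact hk r
    obtain ⟨J, hJ⟩ : ∃ J : Fin 4 → ι, J = Fin.snoc ![i0, i1, i2] l := ⟨_, rfl⟩
    rw [← hJ] at hcirc
    have hJ0 : ∀ m, f (v (J m)) = 0 := by
      intro m
      rw [hJ]
      refine Fin.lastCases ?_ (fun m => ?_) m
      · rw [Fin.snoc_last]; exact hl
      · rw [Fin.snoc_castSucc]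
        fin_cases m
        exacts [hi0, hi1, hi2]
    rw [hset, Set.image_pair, Set.image_pair] at hcirc
    refine ⟨s, J k, J m, ?_, ?_, ?_⟩
    · -- the four points are distinct
      have hl0 : l ≠ i0 := by
        rintro rfl
        obtain ⟨-, h3, -⟩ := hI (c0 - 1) c1 c2 (by
          rw [sub_smul, one_smul]
          have : (c0 • v l - v l) + c1 • v i1 + c2 • v i2 =
            (c0 • v l + c1 • v i1 + c2 • v i2) - v l := by abel
          rw [this, ← hsum, sub_self])
        exact hc1 h3
      have hl1 : l ≠ i1 := by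
        rintro rfl
        obtain ⟨h3, -, -⟩ := hI c0 (c1 - 1) c2 (by
          rw [sub_smul, one_smul]
          have : c0 • v i0 + (c1 • v l - v l) + c2 • v i2 =
            (c0 • v i0 + c1 • v l + c2 • v i2) - v l := by abel
          rw [this, ← hsum, sub_self])
        exact hc0 h3
      have hl2 : l ≠ i2 := by
        rintro rfl
        obtain ⟨h3, -, -⟩ := hI c0 c1 (c2 - 1) (by
          rw [sub_smul, one_smul]
          have : c0 • v i0 + c1 • v i1 + (c2 • v l - v l) =
            (c0 • v i0 + c1 • v i1 + c2 • v l) - v l := by abel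
          rw [this, ← hsum, sub_self])
        exact hc0 h3
      have h01 : i0 ≠ i1 := by
        rintro rfl
        obtain ⟨h2, -, -⟩ := hI 1 (-1) 0 (by simp)
        exact one_ne_zero h2
      have h02 : i0 ≠ i2 := by
        rintro rfl
        obtain ⟨h2, -, -⟩ := hI 1 0 (-1) (by simp)
        exact one_ne_zero h2
      have h12 : i1 ≠ i2 := by
        rintro rfl
        obtain ⟨-, h2, -⟩ := hI 0 1 (-1) (by simp)
        exact one_ne_zero h2
      have hinj : Function.Injective J := by
        have e0 : J 0 = i0 := by rw [hJ]; rfl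
        have e1 : J 1 = i1 := by rw [hJ]; rfl
        have e2 : J 2 = i2 := by rw [hJ]; rfl
        have e3 : J 3 = l := by rw [hJ]; rfl
        intro x y hxy
        fin_cases x <;> fin_cases y <;> simp only [Fin.mk_zero, Fin.mk_one, Fin.reduceFinMk,
          Fin.zero_eta, e0, e1, e2, e3] at hxy ⊢
        all_goals first
          | rfl
          | exact absurd hxy h01
          | exact absurd hxy.symm h01
          | exact absurd hxy h02
          | exact absurd hxy.symm h02
          | exact absurd hxy h12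
          | exact absurd hxy.symm h12
          | exact absurd hxy hl0
          | exact absurd hxy.symm hl0
          | exact absurd hxy hl1
          | exact absurd hxy.symm hl1
          | exact absurd hxy hl2
          | exact absurd hxy.symm hl2
      exact fun h => hkm (hinj h)
    · intro h
      have h2 : span K {v (J k), v (J m)} ≤ LinearMap.ker f := by
        rw [span_le]
        rintro _ (rfl | rfl)
        · exact hJ0 k
        · exact hJ0 m
      exact hf.ne (h2 h)
    · intro z hz
      rcases hcirc z hz with h | h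
      · exact Or.inr h
      · exact Or.inl (h1 _ _ h)

end Pool.Agent.Helper61.Motz
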