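import Pool.Agent.Helper61.Motz.Gal
import Pool.Agent.Helper28.BPack.ModLine

/-!
# Sylvester, Gallai and Motzkin in lattices represented over an ordered field
-/

set_option autoImplicit false
set_option linter.unusedSectionVars false

namespace Pool.Agent.Helper61.Motz

open Submodule Module
open Pool.Agent.Helper28.BPack

section Sub

variable {K V ι : Type} [Field K] [LinearOrder K] [IsStrictOrderedRing K] [AddCommGroup V]
  [Module K V]

/-- The family, seen in its span. -/
def inSpan (v : ι → V) (i : ι) : span K (Set.range v) := ⟨v i, subset_span ⟨i, rfl⟩⟩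

theorem mem_inSpan (v : ι → V) (s : Set ι) (i : ι) :
    inSpan (K := K) v i ∈ span K (inSpan (K := K) v '' s) ↔ v i ∈ span K (v '' s) := by
  have h : span K (v '' s) =
      map (span K (Set.range v)).subtype (span K (inSpan (K := K) v '' s)) := by
    rw [Submodule.map_span, Set.image_image]
    rfl
  rw [h, Submodule.mem_map]
  constructor
  · intro h
    exact ⟨_, h, rfl⟩
  · rintro ⟨y, hy, hxy⟩
    have h2 : y = inSpan (K := K) v i := Subtype.ext hxy
    rwa [← h2]

theorem span_inSpan (v : ι → V) : span K (Set.range (inSpan (K := K) v)) = ⊤ := by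
  rw [eq_top_iff]
  rintro ⟨x, hx⟩ -
  have h : span K (Set.range v) =
      map (span K (Set.range v)).subtype (span K (Set.range (inSpan (K := K) v))) := by
    rw [Submodule.map_span, ← Set.range_comp]
    rfl
  rw [h, Submodule.mem_map] at hx
  obtain ⟨y, hy, hxy⟩ := hx
  have h2 : y = ⟨x, by assumption⟩ := Subtype.ext hxy
  rwa [← h2]

theorem sg3' [Finite ι] (v : ι → V) (hfr : finrank K (span K (Set.range v)) = 3)
    (h0 : ∀ i, v i ≠ 0) (h1 : ∀ i j, v i ∈ span K (v '' {j}) → i = j) :
    ∃ p q, p ≠ q ∧ ∀ z, v z ∈ span K (v '' {p, q}) → z = p ∨ z = q := by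
  obtain ⟨p, q, hpq, h⟩ := sg3 (inSpan (K := K) v) (span_inSpan v) hfr
    (fun i h => h0 i (congrArg Subtype.val h)) (fun i j h => by
      apply h1
      rw [← mem_inSpan, Set.image_singleton]
      exact h)
  refine ⟨p, q, hpq, fun z hz => h z ?_⟩
  rw [← mem_inSpan, Set.image_pair] at hz
  exact hz

theorem motz4' [Finite ι] (v : ι → V) (hfr : finrank K (span K (Set.range v)) = 4)
    (h0 : ∀ i, v i ≠ 0) (h1 : ∀ i j, v i ∈ span K (v '' {j}) → i = j) :
    ∃ p a b, a ≠ b ∧ v p ∉ span K (v '' {a, b}) ∧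
      ∀ z, v z ∈ span K (v '' {p, a, b}) → z = p ∨ v z ∈ span K (v '' {a, b}) := by
  obtain ⟨p, a, b, hab, hp, h⟩ := motz4 (inSpan (K := K) v) (span_inSpan v) hfr
    (fun i h => h0 i (congrArg Subtype.val h)) (fun i j h => by
      apply h1
      rw [← mem_inSpan, Set.image_singleton]
      exact h)
  refine ⟨p, a, b, hab, ?_, ?_⟩
  · rw [← mem_inSpan, Set.image_pair]
    exact hp
  · intro z hz
    rw [← mem_inSpan, Set.image_insert_eq, Set.image_pair] at hz
    rw [← mem_inSpan, Set.image_pair]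
    exact h z hz

end Sub

variable {L : Type} [Lattice L] [BoundedOrder L] [Finite L] [IsUpperModularLattice L]

/-- A representation of the atoms by vectors. -/
def Rep (K : Type) {V : Type} [Field K] [AddCommGroup V] [Module K V] (v : L → V) : Prop :=
  ∀ s : Finset L, (∀ a ∈ s, IsAtom a) → rk (s.sup id) = finrank K (span K (v '' (s : Set L)))

/-- Every set of atoms of rank three has an ordinary line. -/
def SG (L : Type) [Lattice L] [BoundedOrder L] [Finite L] : Prop :=
  ∀ A : Finset L, (∀ a ∈ A, IsAtom a) → rk (A.sup id) = 3 →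
    ∃ p ∈ A, ∃ q ∈ A, p ≠ q ∧ ∀ z ∈ A, z ≤ p ⊔ q → z = p ∨ z = q

/-- Every set of atoms of rank four has a Motzkin plane. -/
def MZ (L : Type) [Lattice L] [BoundedOrder L] [Finite L] : Prop :=
  ∀ A : Finset L, (∀ a ∈ A, IsAtom a) → rk (A.sup id) = 4 →
    ∃ p ∈ A, ∃ a ∈ A, ∃ b ∈ A, a ≠ b ∧ ¬ p ≤ a ⊔ b ∧
      ∀ z ∈ A, z ≤ p ⊔ a ⊔ b → z = p ∨ z ≤ a ⊔ b

namespace Rep

variable {K V : Type} [Field K] [AddCommGroup V] [Module K V] {v : L → V}

theorem le_iff (h : Rep K v) (s : Finset L) (hs : ∀ a ∈ s, IsAtom a) {a : L} (ha : IsAtom a) :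
    a ≤ s.sup id ↔ v a ∈ span K (v '' (s : Set L)) := by
  classical
  have hs' : ∀ x ∈ insert a s, IsAtom x := by
    intro x hx
    rcases Finset.mem_insert.mp hx with rfl | hx
    · exact ha
    · exact hs x hx
  have e1 : (insert a s).sup id = a ⊔ s.sup id := by rw [Finset.sup_insert]; rfl
  have e2 : v '' ((insert a s : Finset L) : Set L) = insert (v a) (v '' (s : Set L)) := by
    rw [Finset.coe_insert, Set.image_insert_eq]
  have hle : span K (v '' (s : Set L)) ≤ span K (insert (v a) (v '' (s : Set L))) :=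
    span_mono (Set.subset_insert _ _)
  have hfin : (insert (v a) (v '' (s : Set L))).Finite := (s.finite_toSet.image v).insert _
  constructor
  · intro hle2
    have h1 := h _ hs'
    rw [e1, sup_eq_right.mpr hle2, h s hs, e2] at h1
    have : FiniteDimensional K (span K (insert (v a) (v '' (s : Set L)))) :=
      FiniteDimensional.span_of_finite K hfin
    have h2 := Submodule.eq_of_le_of_finrank_eq hle h1
    rw [h2]
    exact subset_span (Set.mem_insert _ _)
  · intro hmem
    have h1 := h _ hs'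
    rw [e1, e2, span_insert_eq_span hmem, ← h s hs] at h1
    have h2 := eq_of_le_of_rk (x := s.sup id) (y := a ⊔ s.sup id) le_sup_right h1.le
    rw [h2]
    exact le_sup_left

theorem ne_zero (h : Rep K v) {a : L} (ha : IsAtom a) : v a ≠ 0 := by
  intro h0
  have h1 := (h.le_iff ∅ (by simp) ha).mpr (by rw [h0]; exact zero_mem _)
  rw [Finset.sup_empty] at h1
  exact ha.1 (le_bot_iff.mp h1)

theorem le_pair (h : Rep K v) {a x y : L} (ha : IsAtom a) (hx : IsAtom x) (hy : IsAtom y) :
    a ≤ x ⊔ y ↔ v a ∈ span K (v '' {x, y}) := by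
  classical
  have h1 := h.le_iff {x, y} (by
    intro z hz
    rw [Finset.mem_insert, Finset.mem_singleton] at hz
    rcases hz with rfl | rfl
    exacts [hx, hy]) ha
  rw [Finset.sup_insert, Finset.sup_singleton, Finset.coe_insert, Finset.coe_singleton] at h1
  exact h1

theorem le_triple (h : Rep K v) {a x y z : L} (ha : IsAtom a) (hx : IsAtom x) (hy : IsAtom y)
    (hz : IsAtom z) : a ≤ x ⊔ y ⊔ z ↔ v a ∈ span K (v '' {x, y, z}) := by
  classical
  have h1 := h.le_iff {x, y, z} (by
    intro t ht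
    rw [Finset.mem_insert, Finset.mem_insert, Finset.mem_singleton] at ht
    rcases ht with rfl | rfl | rfl
    exacts [hx, hy, hz]) ha
  rw [Finset.sup_insert, Finset.sup_insert, Finset.sup_singleton, Finset.coe_insert,
    Finset.coe_insert, Finset.coe_singleton, ← sup_assoc] at h1
  exact h1

theorem eq_of_mem (h : Rep K v) {a x : L} (ha : IsAtom a) (hx : IsAtom x)
    (hm : v a ∈ span K (v '' {x})) : a = x := by
  have h1 := (h.le_iff {x} (by
    intro t ht
    rw [Finset.mem_singleton] at ht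
    rw [ht]; exact hx) ha).mpr (by rw [Finset.coe_singleton]; exact hm)
  rw [Finset.sup_singleton] at h1
  exact atom_eq ha hx h1

variable [LinearOrder K] [IsStrictOrderedRing K]

theorem sg (h : Rep K v) : SG L := by
  intro A hA hr
  have hran : Set.range (fun i : A => v i.1) = v '' (A : Set L) := by
    ext x
    constructor
    · rintro ⟨i, rfl⟩
      exact ⟨i.1, i.2, rfl⟩
    · rintro ⟨i, hi, rfl⟩
      exact ⟨⟨i, hi⟩, rfl⟩
  have himg : ∀ s : Set A, (fun i : A => v i.1) '' s = v '' (Subtype.val '' s) := by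
    intro s
    rw [Set.image_image]
  obtain ⟨p, q, hpq, h1⟩ := sg3' (K := K) (fun i : A => v i.1) (by rw [hran, ← h A hA, hr])
    (fun i => h.ne_zero (hA _ i.2)) (fun i j hij => by
      rw [himg, Set.image_singleton] at hij
      exact Subtype.ext (h.eq_of_mem (hA _ i.2) (hA _ j.2) hij))
  refine ⟨p.1, p.2, q.1, q.2, fun h => hpq (Subtype.ext h), ?_⟩
  intro z hz hzle
  have h2 := h1 ⟨z, hz⟩ (by
    rw [himg, Set.image_pair]
    exact (h.le_pair (hA z hz) (hA _ p.2) (hA _ q.2)).mp hzle)
  rcases h2 with h2 | h2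
  · exact Or.inl (congrArg Subtype.val h2)
  · exact Or.inr (congrArg Subtype.val h2)

theorem mz (h : Rep K v) : MZ L := by
  intro A hA hr
  have hran : Set.range (fun i : A => v i.1) = v '' (A : Set L) := by
    ext x
    constructor
    · rintro ⟨i, rfl⟩
      exact ⟨i.1, i.2, rfl⟩
    · rintro ⟨i, hi, rfl⟩
      exact ⟨⟨i, hi⟩, rfl⟩
  have himg : ∀ s : Set A, (fun i : A => v i.1) '' s = v '' (Subtype.val '' s) := by
    intro s
    rw [Set.image_image]
  obtain ⟨p, a, b, hab, hp, h1⟩ := motz4' (K := K) (fun i : A => v i.1)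
    (by rw [hran, ← h A hA, hr])
    (fun i => h.ne_zero (hA _ i.2)) (fun i j hij => by
      rw [himg, Set.image_singleton] at hij
      exact Subtype.ext (h.eq_of_mem (hA _ i.2) (hA _ j.2) hij))
  refine ⟨p.1, p.2, a.1, a.2, b.1, b.2, fun h => hab (Subtype.ext h), ?_, ?_⟩
  · intro hle
    apply hp
    rw [himg, Set.image_pair]
    exact (h.le_pair (hA _ p.2) (hA _ a.2) (hA _ b.2)).mp hle
  · intro z hz hzle
    have h2 := h1 ⟨z, hz⟩ (by
      rw [himg, Set.image_insert_eq, Set.image_pair]
      exact (h.le_triple (hA z hz) (hA _ p.2) (hA _ a.2) (hA _ b.2)).mp hzle)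
    rcases h2 with h2 | h2
    · exact Or.inl (congrArg Subtype.val h2)
    · right
      rw [himg, Set.image_pair] at h2
      exact (h.le_pair (hA z hz) (hA _ a.2) (hA _ b.2)).mpr h2

end Rep

end Pool.Agent.Helper61.Motz
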