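import Mathlib

/-!
# The spanned hyperplane nearest to a point, and circuits in it

`v : ι → V` is a finite spanning family of vectors over an ordered field.
-/

set_option autoImplicit false

namespace Pool.Agent.Helper61.Motz

open Submodule

variable {K : Type} [Field K] [LinearOrder K] [IsStrictOrderedRing K]
variable {V : Type} [AddCommGroup V] [Module K V]
variable {ι : Type} [Finite ι]

/-- The kernel of `f` is spanned by members of the family, and `f` does not vanish at `s`. -/
structure Hyp (v : ι → V) (s : ι) (f : Module.Dual K V) : Prop where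
  ne : f (v s) ≠ 0
  le : LinearMap.ker f ≤ span K (v '' {i | f (v i) = 0})

theorem exists_hyp (v : ι → V) (hspan : span K (Set.range v) = ⊤) (s : ι) (hs : v s ≠ 0) :
    ∃ f : Module.Dual K V, Hyp v s f := by
  obtain ⟨b, hb, hbs, hli⟩ := exists_linearIndependent K (Set.range v)
  have htop : ⊤ ≤ span K (Set.range ((↑) : b → V)) := by
    rw [Subtype.range_coe, hbs, hspan]
  set B := Module.Basis.mk hli htop with hB
  have hBv : ∀ k, B k = (k : V) := fun k => Module.Basis.mk_apply hli htop k
  have hex : ∃ j, B.repr (v s) j ≠ 0 := by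
    by_contra h
    push Not at h
    apply hs
    have : B.repr (v s) = 0 := Finsupp.ext h
    simpa using this
  obtain ⟨j, hj⟩ := hex
  refine ⟨B.coord j, ⟨?_, ?_⟩⟩
  · simpa using hj
  · intro x hx
    have hx0 : B.repr x j = 0 := by simpa using hx
    rw [← B.linearCombination_repr x, Finsupp.linearCombination_apply]
    apply Submodule.sum_mem
    intro k hk
    have hkj : k ≠ j := by
      rintro rfl
      exact (Finsupp.mem_support_iff.mp hk) hx0
    apply Submodule.smul_mem
    obtain ⟨i, hi⟩ := hb k.2
    apply subset_span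
    refine ⟨i, ?_, ?_⟩
    · change B.coord j (v i) = 0
      rw [hi, ← hBv k]
      simp [hkj]
    · rw [hi, hBv k]

theorem exists_generic (v : ι → V) :
    ∃ c : V, ∀ J : Set ι, span K (v '' J) ≠ ⊤ → c ∉ span K (v '' J) := by
  by_contra h
  push Not at h
  have hinf : Infinite K := inferInstance
  have : (⋃ J : {J : Set ι // span K (v '' J) ≠ ⊤}, ((span K (v '' J.1) : Submodule K V) : Set V))
      = Set.univ := by
    ext c
    simp only [Set.mem_iUnion, SetLike.mem_coe, Set.mem_univ, iff_true]
    obtain ⟨J, hJ, hc⟩ := h c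
    exact ⟨⟨J, hJ⟩, hc⟩
  obtain ⟨J, hJ⟩ := Subspace.exists_eq_top_of_iUnion_eq_univ this
  exact J.2 hJ

theorem Hyp.ratio {v : ι → V} {s : ι} {f f' : Module.Dual K V} (hf : Hyp v s f)
    (hf' : Hyp v s f') (h : {i | f (v i) = 0} = {i | f' (v i) = 0}) (c : V) :
    f' c / f' (v s) = f c / f (v s) := by
  have h1 : c - (f c / f (v s)) • v s ∈ LinearMap.ker f := by
    rw [LinearMap.mem_ker, map_sub, map_smul, smul_eq_mul, div_mul_cancel₀ _ hf.ne, sub_self]
  have h2 := hf.le h1
  rw [h] at h2
  have h3 : span K (v '' {i | f' (v i) = 0}) ≤ LinearMap.ker f' := by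
    rw [span_le]
    rintro _ ⟨i, hi, rfl⟩
    exact hi
  have h4 := h3 h2
  rw [LinearMap.mem_ker, map_sub, map_smul, smul_eq_mul] at h4
  rw [div_eq_iff hf'.ne]
  linarith

theorem exists_nearest (v : ι → V) (hspan : span K (Set.range v) = ⊤) (s : ι) (hs : v s ≠ 0)
    (c : V) : ∃ f : Module.Dual K V, Hyp v s f ∧
      ∀ g : Module.Dual K V, Hyp v s g → |g c / g (v s)| ≤ |f c / f (v s)| := by
  classical
  set T : Set K := {r | ∃ f : Module.Dual K V, Hyp v s f ∧ r = |f c / f (v s)|} with hT
  have hfin : T.Finite := by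
    have hsub : T ⊆ Set.range (fun J : Set ι =>
        if h : ∃ f : Module.Dual K V, Hyp v s f ∧ {i | f (v i) = 0} = J then
          |h.choose c / h.choose (v s)| else 0) := by
      rintro r ⟨f, hf, rfl⟩
      refine ⟨{i | f (v i) = 0}, ?_⟩
      have h : ∃ f' : Module.Dual K V, Hyp v s f' ∧ {i | f' (v i) = 0} = {i | f (v i) = 0} :=
        ⟨f, hf, rfl⟩
      change (if h : _ then _ else _) = _
      rw [dif_pos h, h.choose_spec.1.ratio hf h.choose_spec.2 c]
    exact (Set.finite_range _).subset hsub
  obtain ⟨f1, hf1⟩ := exists_hyp v hspan s hs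
  obtain ⟨r, ⟨f, hf, rfl⟩, hmax⟩ := Set.exists_max_image T id hfin ⟨_, f1, hf1, rfl⟩
  exact ⟨f, hf, fun g hg => hmax _ ⟨g, hg, rfl⟩⟩

/-- `g` vanishes exactly on a spanned codimension one subspace of the kernel of `f`. -/
structure Cut (v : ι → V) (f g : Module.Dual K V) : Prop where
  le : LinearMap.ker f ⊓ LinearMap.ker g ≤ span K (v '' {i | f (v i) = 0 ∧ g (v i) = 0})
  ne : ∃ x, f x = 0 ∧ g x ≠ 0

/-- **Key lemma.** -/
theorem key (v : ι → V) (hspan : span K (Set.range v) = ⊤) (s : ι) (hs : v s ≠ 0) :
    ∃ (f : Module.Dual K V) (F : V), Hyp v s f ∧ f F = 0 ∧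
      ∀ g : Module.Dual K V, Cut v f g → g F ≠ 0 ∧
        ∀ z, f (v z) ≠ 0 → 0 < g F →
          0 ≤ (-(f (v s) / f (v z))) * g (v z - (f (v z) / f (v s)) • v s) := by
  obtain ⟨c, hc⟩ := exists_generic (K := K) v
  obtain ⟨f, hf, hmax⟩ := exists_nearest v hspan s hs c
  have hfs := hf.ne
  have hfc : f c ≠ 0 := by
    intro h0
    refine hc {i | f (v i) = 0} ?_ (hf.le h0)
    intro htop
    have h3 : span K (v '' {i | f (v i) = 0}) ≤ LinearMap.ker f := by
      rw [span_le]
      rintro _ ⟨i, hi, rfl⟩
      exact hi
    rw [htop] at h3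
    exact hfs (h3 (mem_top (x := v s)))
  refine ⟨f, v s - (f (v s) / f c) • c, hf, ?_, ?_⟩
  · rw [map_sub, map_smul, smul_eq_mul, div_mul_cancel₀ _ hfc, sub_self]
  · intro g hg
    constructor
    · intro h0
      have h1 : v s - (f (v s) / f c) • c ∈ LinearMap.ker f ⊓ LinearMap.ker g := by
        refine ⟨?_, h0⟩
        change f _ = 0
        rw [map_sub, map_smul, smul_eq_mul, div_mul_cancel₀ _ hfc, sub_self]
      have h2 := hg.le h1
      set J : Set ι := insert s {i | f (v i) = 0 ∧ g (v i) = 0} with hJ
      have h3 : span K (v '' {i | f (v i) = 0 ∧ g (v i) = 0}) ≤ span K (v '' J) :=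
        span_mono (Set.image_mono (Set.subset_insert _ _))
      have h4 : v s ∈ span K (v '' J) := subset_span ⟨s, Set.mem_insert _ _, rfl⟩
      have h5 : c ∈ span K (v '' J) := by
        have h6 : (f (v s) / f c) • c ∈ span K (v '' J) := by
          have h7 := Submodule.sub_mem _ h4 (h3 h2)
          rwa [sub_sub_cancel] at h7
        have h8 := Submodule.smul_mem _ (f c / f (v s)) h6
        rwa [smul_smul, div_mul_div_comm, mul_comm (f c), div_self (mul_ne_zero hfs hfc),
          one_smul] at h8
      refine hc J ?_ h5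
      intro htop
      obtain ⟨x, hx1, hx2⟩ := hg.ne
      have h6 : span K (v '' J) ≤ LinearMap.ker (g - (g (v s) / f (v s)) • f) := by
        rw [span_le]
        rintro _ ⟨i, hi, rfl⟩
        change (g - (g (v s) / f (v s)) • f) (v i) = 0
        rcases hi with rfl | ⟨hi1, hi2⟩
        · simp [hfs]
        · simp [hi1, hi2]
      rw [htop] at h6
      have h7 : (g - (g (v s) / f (v s)) • f) x = 0 := h6 (mem_top (x := x))
      simp [hx1] at h7
      exact hx2 h7
    · intro z hz hgF
      set φ : Module.Dual K V := g - (g (v z) / f (v z)) • f with hφ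
      have hφs : (-(f (v s) / f (v z))) * g (v z - (f (v z) / f (v s)) • v s) = φ (v s) := by
        rw [hφ]
        simp only [map_sub, map_smul, smul_eq_mul, LinearMap.sub_apply, LinearMap.smul_apply]
        field_simp
        ring
      rw [hφs]
      by_contra hneg
      push Not at hneg
      have hH : Hyp v s φ := by
        refine ⟨hneg.ne, ?_⟩
        intro x hx
        have hx1 : g x = (g (v z) / f (v z)) * f x := by
          have : φ x = 0 := hx
          rw [hφ] at this
          simp only [LinearMap.sub_apply, LinearMap.smul_apply, smul_eq_mul] at this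
          linarith
        have h1 : x - (f x / f (v z)) • v z ∈ LinearMap.ker f ⊓ LinearMap.ker g := by
          constructor
          · change f _ = 0
            rw [map_sub, map_smul, smul_eq_mul, div_mul_cancel₀ _ hz, sub_self]
          · change g _ = 0
            rw [map_sub, map_smul, smul_eq_mul, hx1]
            field_simp
            ring
        have h2 := hg.le h1
        have h3 : span K (v '' {i | f (v i) = 0 ∧ g (v i) = 0}) ≤
            span K (v '' {i | φ (v i) = 0}) := by
          apply span_mono
          apply Set.image_mono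
          rintro i ⟨hi1, hi2⟩
          change φ (v i) = 0
          rw [hφ]
          simp [hi1, hi2]
        have h4 : v z ∈ span K (v '' {i | φ (v i) = 0}) := by
          apply subset_span
          refine ⟨z, ?_, rfl⟩
          change φ (v z) = 0
          rw [hφ]
          simp [hz]
        have h5 := Submodule.add_mem _ (h3 h2) (Submodule.smul_mem _ (f x / f (v z)) h4)
        rwa [sub_add_cancel] at h5
      have h1 := hmax φ hH
      have h2 : φ (v s - (f (v s) / f c) • c) = g (v s - (f (v s) / f c) • c) := by
        rw [hφ, LinearMap.sub_apply, LinearMap.smul_apply]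
        have : f (v s - (f (v s) / f c) • c) = 0 := by
          rw [map_sub, map_smul, smul_eq_mul, div_mul_cancel₀ _ hfc, sub_self]
        rw [this]; simp
      rw [← h2, map_sub, map_smul, smul_eq_mul] at hgF
      -- now `φ (v s) < 0`
      have h3 : 0 < |f c / f (v s)| := abs_pos.mpr (div_ne_zero hfc hfs)
      have h4 : f (v s) / f c * φ c = (φ c / φ (v s)) / (f c / f (v s)) * φ (v s) := by
        have := hneg.ne
        field_simp
      have h5 : |(φ c / φ (v s)) / (f c / f (v s))| ≤ 1 := by
        rw [abs_div, div_le_one h3]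
        exact h1
      have h6 : (φ c / φ (v s)) / (f c / f (v s)) ≤ 1 := (le_abs_self _).trans h5
      rw [h4] at hgF
      nlinarith

end Pool.Agent.Helper61.Motz
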