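import Pool.Agent.Helper61.Motz.Lat

/-!
# Peeling off points
-/

set_option autoImplicit false
set_option linter.unusedSectionVars false

namespace Pool.Agent.Helper61.Motz

open Pool.Agent.Helper28.BPack

variable {L : Type} [Lattice L] [BoundedOrder L] [Finite L] [IsUpperModularLattice L]

theorem cancel {h x y p : L} (hx : x ≤ h) (hy : y ≤ h) (hp : IsAtom p) (hph : ¬ p ≤ h)
    (e : x ⊔ p = y ⊔ p) : x = y := by
  have h1 : x ⊔ y ⊔ p = x ⊔ p := by
    apply le_antisymm
    · exact sup_le (sup_le le_sup_left (e ▸ le_sup_left)) le_sup_right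
    · exact sup_le (le_sup_left.trans le_sup_left) le_sup_right
  have hpx : ¬ p ≤ x := fun h2 => hph (h2.trans hx)
  have hpy : ¬ p ≤ y := fun h2 => hph (h2.trans hy)
  have hpxy : ¬ p ≤ x ⊔ y := fun h2 => hph (h2.trans (sup_le hx hy))
  have r1 := rk_sup_atom hp hpxy
  have r2 := rk_sup_atom hp hpx
  have r3 := rk_sup_atom hp hpy
  rw [h1, r2] at r1
  rw [e, r3] at r2
  have e1 : x = x ⊔ y := eq_of_le_of_rk le_sup_left (by omega)
  have e2 : y = x ⊔ y := eq_of_le_of_rk le_sup_right (by omega)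
  exact e1.trans e2.symm

/-- The data in rank three. -/
def Crit3 (A : Finset L) : Prop :=
  ∃ (b : Fin 3 → L) (c : L → L), (∀ i, b i ∈ A) ∧ rk (b 0 ⊔ b 1 ⊔ b 2) = 3 ∧
    (∀ q ∈ A, (∀ i, q ≠ b i) → c q ∈ A ∧ c q ≠ q) ∧
    (∀ q ∈ A, (∀ i, q ≠ b i) → ∀ q' ∈ A, (∀ i, q' ≠ b i) → q ⊔ c q = q' ⊔ c q' → q = q') ∧
    (∀ q ∈ A, (∀ i, q ≠ b i) → ∀ i j, i ≠ j → q ⊔ c q ≠ b i ⊔ b j)

theorem rk_sup_sup_le {a b c : L} (ha : IsAtom a) (hb : IsAtom b) (hc : IsAtom c) :
    rk (a ⊔ b ⊔ c) ≤ 3 := by
  have h1 := rk_sup_atom_le (x := a ⊔ b) hc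
  have h2 := rk_sup_atom_le (x := a) hb
  rw [rk_atom ha] at h2
  omega

theorem ne_of_rk3 {a b c : L} (ha : IsAtom a) (hb : IsAtom b) (hc : IsAtom c)
    (h : rk (a ⊔ b ⊔ c) = 3) : a ≠ b ∧ a ≠ c ∧ b ≠ c := by
  refine ⟨?_, ?_, ?_⟩
  · rintro rfl
    have h1 := rk_sup_atom_le (x := a ⊔ a) hc
    rw [sup_idem, rk_atom ha] at h1
    rw [sup_idem] at h
    omega
  · rintro rfl
    have h1 : a ⊔ b ⊔ a = a ⊔ b := sup_eq_left.mpr le_sup_left
    have h2 := rk_sup_atom_le (x := a) hb
    rw [h1] at h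
    rw [rk_atom ha] at h2
    omega
  · rintro rfl
    have h1 : a ⊔ b ⊔ b = a ⊔ b := sup_eq_left.mpr le_sup_right
    have h2 := rk_sup_atom_le (x := a) hb
    rw [h1] at h
    rw [rk_atom ha] at h2
    omega

theorem sup_erase {A : Finset L} {p : L} [DecidableEq L] (hp : p ∈ A) :
    A.sup id = (A.erase p).sup id ⊔ p := by
  conv_lhs => rw [← Finset.insert_erase hp]
  rw [Finset.sup_insert, sup_comm]
  rfl

theorem crit3 (hsg : SG L) : ∀ (n : ℕ) (A : Finset L), A.card = n → (∀ a ∈ A, IsAtom a) →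
    rk (A.sup id) = 3 → Crit3 A := by
  classical
  intro n
  induction n with
  | zero =>
    intro A hA _ hr
    rw [Finset.card_eq_zero] at hA
    rw [hA, Finset.sup_empty, rk_bot] at hr
    omega
  | succ n ih =>
    intro A hcard hA hr
    by_cases hcol : ∃ p ∈ A, rk ((A.erase p).sup id) ≤ 2
    · obtain ⟨p, hp, hrp⟩ := hcol
      have hsup := sup_erase hp
      set h := (A.erase p).sup id with hh
      have hph : ¬ p ≤ h := fun h1 => by
        rw [sup_eq_left.mpr h1] at hsup
        rw [hsup] at hr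
        omega
      have hr2 : rk h = 2 := by
        have h1 := rk_sup_atom (hA p hp) hph
        rw [← hsup, hr] at h1
        omega
      have hleh : ∀ x ∈ A, x ≠ p → x ≤ h := fun x hx hne =>
        Finset.le_sup (f := id) (Finset.mem_erase.mpr ⟨hne, hx⟩)
      -- two points on `h`
      have hex : ∀ x, rk x < 2 → ∃ a ∈ A.erase p, ¬ a ≤ x := by
        intro x hx
        by_contra hcon
        push Not at hcon
        have h1 : h ≤ x := Finset.sup_le hcon
        have h2 := rk_mono h1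
        omega
      obtain ⟨a1, ha1, -⟩ := hex ⊥ (by rw [rk_bot]; omega)
      have hat1 := hA a1 (Finset.mem_of_mem_erase ha1)
      obtain ⟨a2, ha2, h21⟩ := hex a1 (by rw [rk_atom hat1]; omega)
      have hat2 := hA a2 (Finset.mem_of_mem_erase ha2)
      have h12 : a1 ≠ a2 := fun h3 => h21 h3.symm.le
      have hA1 := Finset.mem_of_mem_erase ha1
      have hA2 := Finset.mem_of_mem_erase ha2
      have hp1 := Finset.ne_of_mem_erase ha1
      have hp2 := Finset.ne_of_mem_erase ha2
      have hline : a1 ⊔ a2 = h := line_eq hat1 hat2 h12 (hleh _ hA1 hp1) (hleh _ hA2 hp2) hr2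
      refine ⟨![a1, a2, p], fun _ => p, ?_, ?_, ?_, ?_, ?_⟩
      · intro i
        fin_cases i
        exacts [hA1, hA2, hp]
      · change rk (a1 ⊔ a2 ⊔ p) = 3
        rw [hline, ← hsup, hr]
      · intro q hq hne
        exact ⟨hp, (hne 2).symm⟩
      · intro q hq hne q' hq' hne' e
        exact cancel (hleh q hq (hne 2)) (hleh q' hq' (hne' 2)) (hA p hp) hph e
      · intro q hq hne
        have hqh := hleh q hq (hne 2)
        have n1 : q ⊔ p ≠ a1 ⊔ a2 := by
          intro e
          rw [hline] at e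
          exact hph (e ▸ le_sup_right)
        have n2 : q ⊔ p ≠ a1 ⊔ p := fun e =>
          hne 0 (cancel hqh (hleh _ hA1 hp1) (hA p hp) hph e)
        have n3 : q ⊔ p ≠ a2 ⊔ p := fun e =>
          hne 1 (cancel hqh (hleh _ hA2 hp2) (hA p hp) hph e)
        have n1' : q ⊔ p ≠ a2 ⊔ a1 := by rw [sup_comm a2]; exact n1
        have n2' : q ⊔ p ≠ p ⊔ a1 := by rw [sup_comm p a1]; exact n2
        have n3' : q ⊔ p ≠ p ⊔ a2 := by rw [sup_comm p a2]; exact n3
        intro i j hij
        fin_cases i <;> fin_cases j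
        · exact absurd rfl hij
        · exact n1
        · exact n2
        · exact n1'
        · exact absurd rfl hij
        · exact n3
        · exact n2'
        · exact n3'
        · exact absurd rfl hij
    · push Not at hcol
      obtain ⟨p, hp, q0, hq0, hpq, hord⟩ := hsg A hA hr
      have hr3 : rk ((A.erase p).sup id) = 3 := by
        have h1 := hcol p hp
        have h2 : (A.erase p).sup id ≤ A.sup id := Finset.sup_mono (Finset.erase_subset _ _)
        have h3 := rk_mono h2
        omega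
      obtain ⟨b, c, hb, hbr, hc, hcc, hcb⟩ := ih (A.erase p)
        (by rw [Finset.card_erase_of_mem hp, hcard]; rfl)
        (fun a ha => hA a (Finset.mem_of_mem_erase ha)) hr3
      have hbA : ∀ i, b i ∈ A := fun i => Finset.mem_of_mem_erase (hb i)
      have hbne := ne_of_rk3 (hA _ (hbA 0)) (hA _ (hbA 1)) (hA _ (hbA 2)) hbr
      have hbinj : ∀ i j, i ≠ j → b i ≠ b j := by
        intro i j hij
        fin_cases i <;> fin_cases j
        · exact absurd rfl hij
        · exact hbne.1
        · exact hbne.2.1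
        · exact hbne.1.symm
        · exact absurd rfl hij
        · exact hbne.2.2
        · exact hbne.2.1.symm
        · exact hbne.2.2.symm
        · exact absurd rfl hij
      -- lines spanned by remaining points are not the ordinary line
      have hkey : ∀ x ∈ A.erase p, ∀ y ∈ A.erase p, x ≠ y → x ⊔ y ≠ p ⊔ q0 := by
        intro x hx y hy hxy e
        have h1 := hord x (Finset.mem_of_mem_erase hx) (e ▸ le_sup_left)
        have h2 := hord y (Finset.mem_of_mem_erase hy) (e ▸ le_sup_right)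
        have h3 := Finset.ne_of_mem_erase hx
        have h4 := Finset.ne_of_mem_erase hy
        exact hxy ((h1.resolve_left h3).trans (h2.resolve_left h4).symm)
      refine ⟨b, fun q => if q = p then q0 else c q, hbA, hbr, ?_, ?_, ?_⟩
      · intro q hq hne
        by_cases h1 : q = p
        · simp only [h1, if_true]
          exact ⟨hq0, hpq.symm⟩
        · simp only [h1, if_false]
          have h2 := hc q (Finset.mem_erase.mpr ⟨h1, hq⟩) hne
          exact ⟨Finset.mem_of_mem_erase h2.1, h2.2⟩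
      · intro q hq hne q' hq' hne' e
        by_cases h1 : q = p
        · by_cases h2 : q' = p
          · rw [h1, h2]
          · exfalso
            simp only [h1, h2, if_true, if_false] at e
            have h3 := Finset.mem_erase.mpr ⟨h2, hq'⟩
            have h4 := hc q' h3 hne'
            exact hkey q' h3 _ h4.1 h4.2.symm e.symm
        · by_cases h2 : q' = p
          · exfalso
            simp only [h1, h2, if_true, if_false] at e
            have h3 := Finset.mem_erase.mpr ⟨h1, hq⟩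
            have h4 := hc q h3 hne
            exact hkey q h3 _ h4.1 h4.2.symm e
          · simp only [h1, h2, if_false] at e
            exact hcc q (Finset.mem_erase.mpr ⟨h1, hq⟩) hne q'
              (Finset.mem_erase.mpr ⟨h2, hq'⟩) hne' e
      · intro q hq hne i j hij
        by_cases h1 : q = p
        · simp only [h1, if_true]
          exact (hkey _ (hb i) _ (hb j) (hbinj i j hij)).symm
        · simp only [h1, if_false]
          exact hcb q (Finset.mem_erase.mpr ⟨h1, hq⟩) hne i j hij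

/-- The data in rank four. -/
def Crit4 (A : Finset L) : Prop :=
  ∃ (b : Fin 4 → L) (c d : L → L), (∀ i, b i ∈ A) ∧
    rk ((Finset.univ : Finset (Fin 4)).sup b) = 4 ∧
    (∀ q ∈ A, (∀ i, q ≠ b i) → c q ∈ A ∧ d q ∈ A ∧ rk (q ⊔ c q ⊔ d q) = 3) ∧
    (∀ q ∈ A, (∀ i, q ≠ b i) → ∀ q' ∈ A, (∀ i, q' ≠ b i) → q ⊔ c q = q' ⊔ c q' → q = q') ∧
    (∀ q ∈ A, (∀ i, q ≠ b i) → ∀ q' ∈ A, (∀ i, q' ≠ b i) → q ⊔ d q = q' ⊔ d q' → q = q') ∧
    (∀ q ∈ A, (∀ i, q ≠ b i) → ∀ q' ∈ A, (∀ i, q' ≠ b i) → q ⊔ c q ≠ q' ⊔ d q') ∧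
    (∀ q ∈ A, (∀ i, q ≠ b i) → ∀ i j, i ≠ j → q ⊔ c q ≠ b i ⊔ b j) ∧
    (∀ q ∈ A, (∀ i, q ≠ b i) → ∀ i j, i ≠ j → q ⊔ d q ≠ b i ⊔ b j) ∧
    (∀ q ∈ A, (∀ i, q ≠ b i) → ∀ q' ∈ A, (∀ i, q' ≠ b i) →
      q ⊔ c q ⊔ d q = q' ⊔ c q' ⊔ d q' → q = q') ∧
    (∀ q ∈ A, (∀ i, q ≠ b i) → ∀ i j k, i ≠ j → i ≠ k → j ≠ k →
      q ⊔ c q ⊔ d q ≠ b i ⊔ b j ⊔ b k)

/-- Extension of rank three data by a coloop. -/
theorem crit4_of_crit3 [DecidableEq L] {A : Finset L} (hA : ∀ a ∈ A, IsAtom a) {p : L}
    (hp : p ∈ A) (hr : rk ((A.erase p).sup id) = 3) (hph : ¬ p ≤ (A.erase p).sup id)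
    (h3 : Crit3 (A.erase p)) : Crit4 A := by
  obtain ⟨b, c, hb, hbr, hc, hcc, hcb⟩ := h3
  set h := (A.erase p).sup id with hh
  have hle : ∀ x ∈ A.erase p, x ≤ h := fun x hx => Finset.le_sup (f := id) hx
  have hpa := hA p hp
  have hBh : b 0 ⊔ b 1 ⊔ b 2 = h := eq_of_le_of_rk
    (sup_le (sup_le (hle _ (hb 0)) (hle _ (hb 1))) (hle _ (hb 2))) (by rw [hr, hbr])
  have hB : (Finset.univ : Finset (Fin 4)).sup ![b 0, b 1, b 2, p] = h ⊔ p := by
    rw [← hBh]
    have h1 : (Finset.univ : Finset (Fin 4)) = insert 0 (insert 1 (insert 2 {3})) := by decide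
    rw [h1, Finset.sup_insert, Finset.sup_insert, Finset.sup_insert, Finset.sup_singleton]
    change b 0 ⊔ (b 1 ⊔ (b 2 ⊔ p)) = b 0 ⊔ b 1 ⊔ b 2 ⊔ p
    rw [sup_assoc, sup_assoc]
  have hcast : ∀ q, (∀ i, q ≠ (![b 0, b 1, b 2, p] : Fin 4 → L) i) →
      (∀ i, q ≠ b i) ∧ q ≠ p := by
    intro q hq
    refine ⟨?_, hq 3⟩
    intro i
    fin_cases i
    exacts [hq 0, hq 1, hq 2]
  have hq1 : ∀ q ∈ A, (∀ i, q ≠ (![b 0, b 1, b 2, p] : Fin 4 → L) i) →
      q ∈ A.erase p ∧ (∀ i, q ≠ b i) := fun q hq hne =>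
    ⟨Finset.mem_erase.mpr ⟨(hcast q hne).2, hq⟩, (hcast q hne).1⟩
  -- the lines of the lower level
  have hlow : ∀ i : Fin 4, i = 3 ∨ ∃ i' : Fin 3, (![b 0, b 1, b 2, p] : Fin 4 → L) i = b i' ∧
      i.val = i'.val := by
    intro i
    fin_cases i
    · exact Or.inr ⟨0, rfl, rfl⟩
    · exact Or.inr ⟨1, rfl, rfl⟩
    · exact Or.inr ⟨2, rfl, rfl⟩
    · exact Or.inl rfl
  refine ⟨![b 0, b 1, b 2, p], c, fun _ => p, ?_, ?_, ?_, ?_, ?_, ?_, ?_, ?_, ?_, ?_⟩
  · intro i
    fin_cases i
    exacts [Finset.mem_of_mem_erase (hb 0), Finset.mem_of_mem_erase (hb 1),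
      Finset.mem_of_mem_erase (hb 2), hp]
  · rw [hB, rk_sup_atom hpa hph, hr]
  · intro q hq hne
    obtain ⟨hqe, hqb⟩ := hq1 q hq hne
    obtain ⟨h1, h2⟩ := hc q hqe hqb
    refine ⟨Finset.mem_of_mem_erase h1, hp, ?_⟩
    rw [rk_sup_atom hpa (fun h4 => hph (h4.trans (sup_le (hle _ hqe) (hle _ h1)))),
      rk_line (hA q hq) (hA _ (Finset.mem_of_mem_erase h1)) h2.symm]
  · intro q hq hne q' hq' hne' e
    obtain ⟨hqe, hqb⟩ := hq1 q hq hne
    obtain ⟨hqe', hqb'⟩ := hq1 q' hq' hne'
    exact hcc q hqe hqb q' hqe' hqb' e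
  · intro q hq hne q' hq' hne' e
    exact cancel (hle _ (hq1 q hq hne).1) (hle _ (hq1 q' hq' hne').1) hpa hph e
  · intro q hq hne q' hq' hne' e
    obtain ⟨hqe, hqb⟩ := hq1 q hq hne
    have h1 := (hc q hqe hqb).1
    exact hph ((le_sup_right : p ≤ q' ⊔ p).trans (e.symm.le.trans (sup_le (hle _ hqe) (hle _ h1))))
  · intro q hq hne i j hij
    obtain ⟨hqe, hqb⟩ := hq1 q hq hne
    have h1 := (hc q hqe hqb).1
    have h2 : q ⊔ c q ≤ h := sup_le (hle _ hqe) (hle _ h1)
    rcases hlow i with rfl | ⟨i', hi, hii⟩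
    · intro e
      exact hph ((le_sup_left : p ≤ p ⊔ _).trans (e.symm.le.trans h2))
    · rcases hlow j with rfl | ⟨j', hj, hjj⟩
      · intro e
        exact hph ((le_sup_right : p ≤ _ ⊔ p).trans (e.symm.le.trans h2))
      · rw [hi, hj]
        apply hcb q hqe hqb
        rintro rfl
        exact hij (Fin.ext (hii.trans hjj.symm))
  · intro q hq hne i j hij
    obtain ⟨hqe, hqb⟩ := hq1 q hq hne
    rcases hlow i with rfl | ⟨i', hi, hii⟩
    · rcases hlow j with rfl | ⟨j', hj, hjj⟩
      · exact absurd rfl hij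
      · rw [hj]
        intro e
        have e' : q ⊔ p = b j' ⊔ p := e.trans (sup_comm _ _)
        exact hqb j' (cancel (hle _ hqe) (hle _ (hb j')) hpa hph e')
    · rcases hlow j with rfl | ⟨j', hj, hjj⟩
      · rw [hi]
        intro e
        exact hqb i' (cancel (hle _ hqe) (hle _ (hb i')) hpa hph e)
      · rw [hi, hj]
        intro e
        exact hph ((le_sup_right : p ≤ q ⊔ p).trans
          (e.le.trans (sup_le (hle _ (hb i')) (hle _ (hb j')))))
  · intro q hq hne q' hq' hne' e
    obtain ⟨hqe, hqb⟩ := hq1 q hq hne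
    obtain ⟨hqe', hqb'⟩ := hq1 q' hq' hne'
    have h1 := (hc q hqe hqb).1
    have h2 := (hc q' hqe' hqb').1
    exact hcc q hqe hqb q' hqe' hqb' (cancel (sup_le (hle _ hqe) (hle _ h1))
      (sup_le (hle _ hqe') (hle _ h2)) hpa hph e)
  · intro q hq hne i j k hij hik hjk
    obtain ⟨hqe, hqb⟩ := hq1 q hq hne
    have h1 := (hc q hqe hqb).1
    have h2 : q ⊔ c q ≤ h := sup_le (hle _ hqe) (hle _ h1)
    have hcase : ∀ (x y : Fin 3), x ≠ y → q ⊔ c q ⊔ p ≠ b x ⊔ b y ⊔ p := by
      intro x y hxy e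
      exact hcb q hqe hqb x y hxy (cancel h2 (sup_le (hle _ (hb x)) (hle _ (hb y))) hpa hph e)
    rcases hlow i with rfl | ⟨i', hi, hii⟩
    · rcases hlow j with rfl | ⟨j', hj, hjj⟩
      · exact absurd rfl hij
      · rcases hlow k with rfl | ⟨k', hk, hkk⟩
        · exact absurd rfl hik
        · rw [hj, hk]
          have e1 : (![b 0, b 1, b 2, p] : Fin 4 → L) 3 = p := rfl
          have e2 : p ⊔ b j' ⊔ b k' = b j' ⊔ b k' ⊔ p := by rw [sup_assoc, sup_comm]
          rw [e1, e2]
          apply hcase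
          rintro rfl
          exact hjk (Fin.ext (hjj.trans hkk.symm))
    · rcases hlow j with rfl | ⟨j', hj, hjj⟩
      · rcases hlow k with rfl | ⟨k', hk, hkk⟩
        · exact absurd rfl hjk
        · rw [hi, hk]
          have e1 : (![b 0, b 1, b 2, p] : Fin 4 → L) 3 = p := rfl
          have e2 : b i' ⊔ p ⊔ b k' = b i' ⊔ b k' ⊔ p := sup_right_comm _ _ _
          rw [e1, e2]
          apply hcase
          rintro rfl
          exact hik (Fin.ext (hii.trans hkk.symm))
      · rcases hlow k with rfl | ⟨k', hk, hkk⟩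
        · rw [hi, hj]
          apply hcase
          rintro rfl
          exact hij (Fin.ext (hii.trans hjj.symm))
        · rw [hi, hj, hk]
          intro e
          exact hph ((le_sup_right : p ≤ q ⊔ c q ⊔ p).trans
            (e.le.trans (sup_le (sup_le (hle _ (hb i')) (hle _ (hb j'))) (hle _ (hb k')))))

theorem crit4 (hsg : SG L) (hmz : MZ L) : ∀ (n : ℕ) (A : Finset L), A.card = n →
    (∀ a ∈ A, IsAtom a) → rk (A.sup id) = 4 → Crit4 A := by
  classical
  intro n
  induction n with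
  | zero =>
    intro A hA _ hr
    rw [Finset.card_eq_zero] at hA
    rw [hA, Finset.sup_empty, rk_bot] at hr
    omega
  | succ n ih =>
    intro A hcard hA hr
    by_cases hcol : ∃ p ∈ A, rk ((A.erase p).sup id) ≤ 3
    · obtain ⟨p, hp, hrp⟩ := hcol
      have hsup := sup_erase hp
      have hph : ¬ p ≤ (A.erase p).sup id := fun h1 => by
        rw [sup_eq_left.mpr h1] at hsup
        rw [hsup] at hr
        omega
      have hr3 : rk ((A.erase p).sup id) = 3 := by
        have h1 := rk_sup_atom (hA p hp) hph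
        rw [← hsup, hr] at h1
        omega
      exact crit4_of_crit3 hA hp hr3 hph
        (crit3 hsg _ (A.erase p) rfl (fun a ha => hA a (Finset.mem_of_mem_erase ha)) hr3)
    · push Not at hcol
      obtain ⟨p, hp, a1, ha1, a2, ha2, h12, hp12, hord⟩ := hmz A hA hr
      have hr4 : rk ((A.erase p).sup id) = 4 := by
        have h1 := hcol p hp
        have h2 : (A.erase p).sup id ≤ A.sup id := Finset.sup_mono (Finset.erase_subset _ _)
        have h3 := rk_mono h2
        omega
      obtain ⟨b, c, d, hb, hbr, hc, hcc, hdd, hcd, hcb, hdb, hpp, hpb⟩ := ih (A.erase p)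
        (by rw [Finset.card_erase_of_mem hp, hcard]; rfl)
        (fun a ha => hA a (Finset.mem_of_mem_erase ha)) hr4
      -- joins of remaining points below the plane miss `p`
      have hmem : ∀ x ∈ A.erase p, x ≤ p ⊔ a1 ⊔ a2 → x ≤ a1 ⊔ a2 := fun x hx hle =>
        (hord x (Finset.mem_of_mem_erase hx) hle).resolve_left (Finset.ne_of_mem_erase hx)
      have key2 : ∀ x ∈ A.erase p, ∀ y ∈ A.erase p, x ⊔ y ≤ p ⊔ a1 ⊔ a2 → ¬ p ≤ x ⊔ y := by
        intro x hx y hy hle hle2
        exact hp12 (hle2.trans (sup_le (hmem x hx (le_sup_left.trans hle))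
          (hmem y hy (le_sup_right.trans hle))))
      have key3 : ∀ x ∈ A.erase p, ∀ y ∈ A.erase p, ∀ z ∈ A.erase p,
          x ⊔ y ⊔ z ≠ p ⊔ a1 ⊔ a2 := by
        intro x hx y hy z hz e
        have hx' := hmem x hx (e ▸ (le_sup_left.trans le_sup_left))
        have hy' := hmem y hy (e ▸ (le_sup_right.trans le_sup_left))
        have hz' := hmem z hz (e ▸ le_sup_right)
        exact hp12 ((le_sup_left.trans le_sup_left : p ≤ p ⊔ a1 ⊔ a2).trans
          (e.symm.le.trans (sup_le (sup_le hx' hy') hz')))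
      have n1 : ∀ x ∈ A.erase p, ∀ y ∈ A.erase p, x ⊔ y ≠ p ⊔ a1 := fun x hx y hy e =>
        key2 x hx y hy (e.le.trans le_sup_left) (e ▸ le_sup_left)
      have n2 : ∀ x ∈ A.erase p, ∀ y ∈ A.erase p, x ⊔ y ≠ p ⊔ a2 := fun x hx y hy e =>
        key2 x hx y hy (e.le.trans (sup_le (le_sup_left.trans le_sup_left) le_sup_right))
          (e ▸ le_sup_left)
      have hpa1 : a1 ≠ p := fun h => hp12 (h ▸ le_sup_left)
      have hpa2 : a2 ≠ p := fun h => hp12 (h ▸ le_sup_right)
      have hE : ∀ q ∈ A, q ≠ p → q ∈ A.erase p := fun q hq h => Finset.mem_erase.mpr ⟨h, hq⟩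
      refine ⟨b, fun q => if q = p then a1 else c q, fun q => if q = p then a2 else d q,
        fun i => Finset.mem_of_mem_erase (hb i), hbr, ?_, ?_, ?_, ?_, ?_, ?_, ?_, ?_⟩
      · intro q hq hne
        by_cases h1 : q = p
        · simp only [h1, if_true]
          refine ⟨ha1, ha2, ?_⟩
          have h2 : p ⊔ a1 ⊔ a2 = a1 ⊔ a2 ⊔ p := by rw [sup_assoc, sup_comm]
          rw [h2, rk_sup_atom (hA p hp) hp12, rk_line (hA _ ha1) (hA _ ha2) h12]
        · simp only [h1, if_false]
          have h2 := hc q (hE q hq h1) hne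
          exact ⟨Finset.mem_of_mem_erase h2.1, Finset.mem_of_mem_erase h2.2.1, h2.2.2⟩
      · intro q hq hne q' hq' hne' e
        by_cases h1 : q = p <;> by_cases h2 : q' = p
        · rw [h1, h2]
        · exfalso
          simp only [h1, h2, if_true, if_false] at e
          exact n1 q' (hE q' hq' h2) _ (hc q' (hE q' hq' h2) hne').1 e.symm
        · exfalso
          simp only [h1, h2, if_true, if_false] at e
          exact n1 q (hE q hq h1) _ (hc q (hE q hq h1) hne).1 e
        · simp only [h1, h2, if_false] at e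
          exact hcc q (hE q hq h1) hne q' (hE q' hq' h2) hne' e
      · intro q hq hne q' hq' hne' e
        by_cases h1 : q = p <;> by_cases h2 : q' = p
        · rw [h1, h2]
        · exfalso
          simp only [h1, h2, if_true, if_false] at e
          exact n2 q' (hE q' hq' h2) _ (hc q' (hE q' hq' h2) hne').2.1 e.symm
        · exfalso
          simp only [h1, h2, if_true, if_false] at e
          exact n2 q (hE q hq h1) _ (hc q (hE q hq h1) hne).2.1 e
        · simp only [h1, h2, if_false] at e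
          exact hdd q (hE q hq h1) hne q' (hE q' hq' h2) hne' e
      · intro q hq hne q' hq' hne'
        by_cases h1 : q = p <;> by_cases h2 : q' = p
        · simp only [h1, h2, if_true]
          intro e
          have e1 : p ⊔ a1 ⊔ a2 = p ⊔ a1 := by
            apply sup_eq_left.mpr
            rw [e]
            exact le_sup_right
          have e2 : p ⊔ a1 ⊔ a2 = a1 ⊔ a2 ⊔ p := by rw [sup_assoc, sup_comm]
          have e3 := rk_sup_atom (hA p hp) hp12
          rw [← e2, e1, rk_line (hA p hp) (hA _ ha1) hpa1.symm,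
            rk_line (hA _ ha1) (hA _ ha2) h12] at e3
          omega
        · simp only [h1, h2, if_true, if_false]
          exact (n1 q' (hE q' hq' h2) _ (hc q' (hE q' hq' h2) hne').2.1).symm
        · simp only [h1, h2, if_true, if_false]
          exact n2 q (hE q hq h1) _ (hc q (hE q hq h1) hne).1
        · simp only [h1, h2, if_false]
          exact hcd q (hE q hq h1) hne q' (hE q' hq' h2) hne'
      · intro q hq hne i j hij
        by_cases h1 : q = p
        · simp only [h1, if_true]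
          exact (n1 _ (hb i) _ (hb j)).symm
        · simp only [h1, if_false]
          exact hcb q (hE q hq h1) hne i j hij
      · intro q hq hne i j hij
        by_cases h1 : q = p
        · simp only [h1, if_true]
          exact (n2 _ (hb i) _ (hb j)).symm
        · simp only [h1, if_false]
          exact hdb q (hE q hq h1) hne i j hij
      · intro q hq hne q' hq' hne' e
        by_cases h1 : q = p <;> by_cases h2 : q' = p
        · rw [h1, h2]
        · exfalso
          simp only [h1, h2, if_true, if_false] at e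
          have h3 := hc q' (hE q' hq' h2) hne'
          exact key3 q' (hE q' hq' h2) _ h3.1 _ h3.2.1 e.symm
        · exfalso
          simp only [h1, h2, if_true, if_false] at e
          have h3 := hc q (hE q hq h1) hne
          exact key3 q (hE q hq h1) _ h3.1 _ h3.2.1 e
        · simp only [h1, h2, if_false] at e
          exact hpp q (hE q hq h1) hne q' (hE q' hq' h2) hne' e
      · intro q hq hne i j k hij hik hjk
        by_cases h1 : q = p
        · simp only [h1, if_true]
          exact (key3 _ (hb i) _ (hb j) _ (hb k)).symm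
        · simp only [h1, if_false]
          exact hpb q (hE q hq h1) hne i j k hij hik hjk

/-- **Packing.** -/
theorem hasPack_of_sg_mz
    (hat : ∀ x : L, ∃ s : Finset L, (∀ a ∈ s, IsAtom a) ∧ s.sup id = x)
    (hr : rk (⊤ : L) = 4) (hsg : SG L) (hmz : MZ L) : HasPack (⊥ : L) := by
  classical
  have : Fintype L := Fintype.ofFinite L
  set A : Finset L := Finset.univ.filter (fun a => IsAtom a) with hAdef
  have hmem : ∀ a, a ∈ A ↔ IsAtom a := fun a => by simp [hAdef]
  have hAt : A.sup id = ⊤ := by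
    obtain ⟨s, hs, hst⟩ := hat ⊤
    apply top_unique
    rw [← hst]
    exact Finset.sup_mono (fun a ha => (hmem a).mpr (hs a ha))
  obtain ⟨b, c, d, hb, hbr, hc, hcc, hdd, hcd, hcb, hdb, hpp, hpb⟩ :=
    crit4 hsg hmz _ A rfl (fun a ha => (hmem a).mp ha) (by rw [hAt, hr])
  refine hasPack_of_crit hr b (fun i => (hmem _).mp (hb i))
    (eq_of_le_of_rk le_top (by rw [hr, hbr])) c d ?_ ?_ ?_ ?_ ?_ ?_ ?_ ?_
  · intro q hq hne
    have h1 := hc q ((hmem q).mpr hq) hne
    exact ⟨(hmem _).mp h1.1, (hmem _).mp h1.2.1, h1.2.2⟩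
  · intro q q' hq hne hq' hne' e
    exact hcc q ((hmem q).mpr hq) hne q' ((hmem q').mpr hq') hne' e
  · intro q q' hq hne hq' hne' e
    exact hdd q ((hmem q).mpr hq) hne q' ((hmem q').mpr hq') hne' e
  · intro q q' hq hne hq' hne'
    exact hcd q ((hmem q).mpr hq) hne q' ((hmem q').mpr hq') hne'
  · intro q i j hq hne hij
    exact hcb q ((hmem q).mpr hq) hne i j hij
  · intro q i j hq hne hij
    exact hdb q ((hmem q).mpr hq) hne i j hij
  · intro q q' hq hne hq' hne' e
    exact hpp q ((hmem q).mpr hq) hne q' ((hmem q').mpr hq') hne' e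
  · intro q i j k hq hne hij hik hjk
    exact hpb q ((hmem q).mpr hq) hne i j k hij hik hjk

end Pool.Agent.Helper61.Motz
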