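import Pool.Agent.Helper61.Motz.Peel
import Pool.Agent.Helper28.BPack.Main

/-!
# Boolean packings of rank four geometric lattices represented over an ordered field

Let `L` be a geometric lattice of rank four whose atoms are represented by vectors over a linearly
ordered field, for instance the intersection lattice of an essential real hyperplane arrangement in
four-dimensional space.  Then `L` has a Boolean packing.  The proof gives the packing for all
geometric lattices of rank four such that every set of atoms of rank three has a two-point line and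
every set of atoms of rank four has a plane all but one of whose points lie on a line; that
represented lattices have these properties are the theorems of Sylvester and Gallai and of Motzkin,
which are proved here as well.
-/

set_option autoImplicit false

namespace Pool.Agent.Helper61.Motz.RealRankFourOld

open Pool.Agent.Helper28.BPack

/-- **Main theorem.** -/
theorem real_rank_four :
    ∀ (L : Type) [Lattice L] [BoundedOrder L] [Fintype L] [IsUpperModularLattice L],
      (∀ x : L, ∃ s : Finset L, (∀ a ∈ s, IsAtom a) ∧ s.sup id = x) →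
      Order.height (⊤ : L) = 4 →
      ((∃ (K V : Type) (_ : Field K) (_ : LinearOrder K) (_ : IsStrictOrderedRing K)
          (_ : AddCommGroup V) (_ : Module K V) (v : L → V),
          ∀ s : Finset L, (∀ a ∈ s, IsAtom a) →
            Order.height (s.sup id) = (Module.finrank K (Submodule.span K (v '' (s : Set L))) : ℕ∞)) ∨
        ((∀ A : Finset L, (∀ a ∈ A, IsAtom a) → Order.height (A.sup id) = 3 →
            ∃ p ∈ A, ∃ q ∈ A, p ≠ q ∧ ∀ z ∈ A, z ≤ p ⊔ q → z = p ∨ z = q) ∧
          (∀ A : Finset L, (∀ a ∈ A, IsAtom a) → A.sup id = ⊤ →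
            ∃ p ∈ A, ∃ a ∈ A, ∃ b ∈ A, a ≠ b ∧ ¬ p ≤ a ⊔ b ∧
              ∀ z ∈ A, z ≤ p ⊔ a ⊔ b → z = p ∨ z ≤ a ⊔ b))) →
      ∃ (t : ℕ) (n : Fin t → ℕ) (φ : ∀ i : Fin t, Set (Fin (n i)) → L),
        (∀ i, Function.Injective (φ i)) ∧
        (∀ i (a b : Set (Fin (n i))), a ⋖ b → φ i a ⋖ φ i b) ∧
        (∀ i, Order.height (⊤ : L) ≤ Order.height (φ i ⊥) + Order.height (φ i ⊤)) ∧
        (∀ x : L, ∃! p : (Σ i : Fin t, Set (Fin (n i))), φ p.1 p.2 = x) := by
  intro L _ _ _ _ hat hr h
  have hr' : rk (⊤ : L) = 4 := by
    rw [← coe_rk] at hr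
    exact_mod_cast hr
  apply HasPack.to_packing
  rcases h with ⟨K, V, _, _, _, _, _, v, hv⟩ | ⟨h3, h4⟩
  · have hrep : Helper61.Motz.Rep K v := by
      intro s hs
      have h1 := hv s hs
      rw [← coe_rk] at h1
      exact_mod_cast h1
    exact Helper61.Motz.hasPack_of_sg_mz hat hr' hrep.sg hrep.mz
  · apply Helper61.Motz.hasPack_of_sg_mz hat hr'
    · intro A hA hrA
      exact h3 A hA (by rw [← coe_rk, hrA]; rfl)
    · intro A hA hrA
      exact h4 A hA (eq_of_le_of_rk le_top (by rw [hr', hrA]))

end Pool.Agent.Helper61.Motz.RealRankFourOld
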